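import Pool.Agent.Helper59.OKD.Nr
import Pool.Agent.Helper8.CPY.Trp

/-! DIAGONALS of the class `NC` for the selection: pairs `(s, R)` with non concentration of the tangents given `R`, point
visible given `R` up to `o(n)` bits, transversal pair of types given `R`; and of the systems which have such a
resolution. -/

set_option autoImplicit false

namespace Pool.Agent.Helper37.OKD

open Finset Filter Topology Matrix Pool.Agent.Helper69.RK Pool.Agent.Helper31.EC Pool.Agent.Helper31.EC.Sp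
open Pool.Agent.Helper40.EL Pool.Agent.Helper89.LX Pool.Agent.Helper3.LF Pool.Agent.Helper84.MT
open Pool.Agent.Helper49.MD Pool.Agent.Helper36.AM Pool.Agent.Helper37.DK2 Pool.Agent.Helper29.MX
open Pool.Agent.Helper47.FN (KR lftR obR nul_of)
open Pool.Agent.Helper59.OKD (NCR)

noncomputable section

variable {S : Sp} {M : ℕ} {E : ℕ → ℕ} {ι : Type}

/-! ### pairs and diagonals -/

theorem giv_ob [Finite ι] {s : MSys S M E ι} {x : (KM M ι).Ob S} (h : Giv s x) : ∀ᶠ k in UF, ob s k = x k := by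
  have h2 : ∀ᶠ k in UF, ∀ i, lob (s.lf i) k = (x k : FMs (S.F k).Ω M ι).lf i := eventually_all.mpr h.2
  filter_upwards [h.1, h2] with k a b
  show (⟨s.Q.v k, fun i => lob (s.lf i) k⟩ : FMs (S.F k).Ω M ι) =
    ⟨(x k : FMs (S.F k).Ω M ι).Q, (x k : FMs (S.F k).Ω M ι).lf⟩
  rw [a, funext b]

theorem giv_of {s : MSys S M E ι} {x : (KM M ι).Ob S} (h : ∀ᶠ k in UF, ob s k = x k) : Giv s x := by
  refine ⟨?_, fun i => ?_⟩
  · filter_upwards [h] with k hk
    rw [← hk]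
    rfl
  · filter_upwards [h] with k hk
    rw [← hk]
    rfl

/-- the pair of a member is the object, eventually -/
theorem giv_pair [Finite ι] {s : MSys S M E ι} {R : ∀ k, Setoid (S.F k).Ω} {x : (KR M ι).Ob S}
    (h : Giv s (fun k => (x k : FMs (S.F k).Ω M ι × Setoid (S.F k).Ω).1))
    (hR : ∀ᶠ k in UF, R k = (x k : FMs (S.F k).Ω M ι × Setoid (S.F k).Ω).2) : ∀ᶠ k in UF, obR s R k = x k := by
  filter_upwards [giv_ob h, hR] with k a b
  exact Prod.ext a b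

/-- all pairs -/
theorem lftR_true [Finite ι] : DiagCl (lftR (E := E) (ι := ι) (M := M) fun _ _ _ => True) := by
  intro S x hx
  have h1 : ∀ j, isM M E ι (S j) (fun k => (x j k : FMs ((S j).F k).Ω M ι × Setoid ((S j).F k).Ω).1) := by
    intro j
    obtain ⟨s, R, h1, -, -⟩ := hx j
    exact ⟨s, giv_ob h1⟩
  obtain ⟨P, hP, h2⟩ := isM_diagCl S (fun j k => (x j k : FMs ((S j).F k).Ω M ι × Setoid ((S j).F k).Ω).1) h1
  refine ⟨P, hP, fun J h => ?_⟩
  obtain ⟨t, ht⟩ := h2 J h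
  exact ⟨t, fun k => (x (J k) k : FMs ((S (J k)).F k).Ω M ι × Setoid ((S (J k)).F k).Ω).2, giv_of ht,
    Eventually.of_forall fun _ => rfl, trivial⟩

/-- pairs with an approximate finite predicate -/
theorem lftR_ap [Finite ι] (A : AP (KR M ι)) :
    DiagCl (lftR (E := E) fun S (s : MSys S M E ι) R => A.pd 0 S (obR s R)) := by
  refine (DiagCl.and (lftR_true (E := E)) (A.diagCl 0)).mono (fun _ S x h => ?_) (fun S x h => ?_)
  · obtain ⟨s, R, h1, h2, h3⟩ := h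
    exact ⟨⟨s, R, h1, h2, trivial⟩, A.inv 0 S _ _ (giv_pair h1 h2) h3⟩
  · obtain ⟨⟨s, R, h1, h2, -⟩, h3⟩ := h
    exact ⟨s, R, h1, h2, A.inv 0 S _ _ ((giv_pair h1 h2).mono fun _ e => e.symm) h3⟩

/-- the resolution is forgotten -/
theorem diagCl_ex [Finite ι] {P : ∀ S : Sp, MSys S M E ι → (∀ k, Setoid (S.F k).Ω) → Prop} (hP : DiagCl (lftR P)) :
    DiagCl (lft fun S s => ∃ R, P S s R) := by
  intro S x hx
  choose s hs R hR using hx
  obtain ⟨W, hW, h1⟩ := hP S (fun j k => ((x j k : FMs ((S j).F k).Ω M ι), R j k)) fun j =>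
    ⟨s j, R j, giv_of (hs j), Eventually.of_forall fun _ => rfl, hR j⟩
  refine ⟨W, hW, fun J h => ?_⟩
  obtain ⟨t, R', g1, -, g3⟩ := h1 J h
  exact ⟨t, giv_ob g1, R', g3⟩

/-! ### the class -/

/-- non concentration given the resolution, finite predicate -/
def ncrA (M : ℕ) (ι : Type) (k : ℕ) (h₀ : ℝ) : AP (KR M ι) where
  P := fun F (x : FMs F.Ω M ι × Setoid F.Ω) δ => NCf F x.2 (Fin (M + 1 - k)) (mtan x.1) h₀ δ
  mono := fun _ _ _ _ hδ H => NCf.mono hδ H

/-- the cells of the point are visible given the resolution, finite predicate -/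
def nptA (M : ℕ) (ι : Type) : AP (KR M ι) where
  P := fun F (x : FMs F.Ω M ι × Setoid F.Ω) δ => h (fc (cQ1 F x.1) : FL F) (fc x.2) ≤ δ * F.n
  mono := fun F _ _ _ hδ H => H.trans (mul_le_mul_of_nonneg_right hδ F.pos.le)

/-- THE POINT is visible given the resolution -/
def NPt (s : MSys S M E ι) (R : Rsl S) : Prop :=
  Nul S fun n => h (fc (Setoid.ker (s.Q.cellv 1 n)) : FL (S.F n)) (fc (R n))

theorem ncr_iff {k : ℕ} {h₀ : ℝ} (s : MSys S M E ι) (R : Rsl S) : (ncrA M ι k h₀).pd 0 S (obR s R) ↔ NCR k h₀ s R :=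
  Iff.rfl

theorem npt_iff (s : MSys S M E ι) (R : Rsl S) : (nptA M ι).pd 0 S (obR s R) ↔ NPt s R := by
  constructor
  · intro g
    refine nul_of (fun n => h_nonneg _ _) fun δ hδ => ?_
    exact g δ hδ
  · intro g δ hδ
    have h1 : Tendsto (fun n => h (fc (Setoid.ker (s.Q.cellv 1 n)) : FL (S.F n)) (fc (R n)) / (S.F n).n) UF (𝓝 0) := g
    filter_upwards [h1.eventually (gt_mem_nhds hδ)] with n hn
    rw [div_lt_iff₀ (S.F n).pos] at hn
    exact hn.le

/-- diagonals of pairs -/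
theorem dg_pair [Finite ι] (k : ℕ) (h₀ : ℝ) : DiagCl (lftR (E := E) (ι := ι) (M := M) fun _ s R =>
    (NCR k h₀ s R ∧ NPt s R) ∧ Trp s R) := by
  refine Pool.Agent.Helper8.CPY.trp_dg ?_
  refine (lftR_ap (E := E) ((ncrA M ι k h₀).and (nptA M ι))).mono (fun _ S x h => ?_) (fun S x h => ?_)
  · obtain ⟨s, R, h1, h2, h3⟩ := h
    exact ⟨s, R, h1, h2, ((ncrA M ι k h₀).and_pd (nptA M ι) 0 S _).mpr ⟨h3.1, (npt_iff s R).mpr h3.2⟩⟩
  · obtain ⟨s, R, h1, h2, h3⟩ := h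
    have h4 := ((ncrA M ι k h₀).and_pd (nptA M ι) 0 S _).mp h3
    exact ⟨s, R, h1, h2, h4.1, (npt_iff s R).mp h4.2⟩

/-- THE FIELD `dg` -/
theorem dg_nc [Finite ι] (k : ℕ) (h₀ : ℝ) : DiagCl (lft (E := E) (ι := ι) (M := M) fun S s => ∃ R : Rsl S,
    NCR k h₀ s R ∧ NPt s R ∧ Trp s R) :=
  (diagCl_ex (dg_pair k h₀)).mono
    (fun _ _ _ h => by
      obtain ⟨s, h1, R, h2, h3, h4⟩ := h
      exact ⟨s, h1, R, ⟨h2, h3⟩, h4⟩)
    (fun _ _ h => by
      obtain ⟨s, h1, R, ⟨h2, h3⟩, h4⟩ := h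
      exact ⟨s, h1, R, h2, h3, h4⟩)

end

end Pool.Agent.Helper37.OKD
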