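import Pool.Agent.Helper37.OKD.Opt
import Pool.Agent.Helper63.FRT.Cof
import Pool.Agent.Helper89.MG.Typd

/-! VARIATION OF THE JACOBIAN of optimal flag rows: at the distance of the finest resolution the Jacobian changes by a factor
`1 + O(2 ^ (- u n / 2))`. The rows `2 ^ (3 u n / 4) (p_j (x + v) - p_j (x))` are admissible, so they are dominated. -/

set_option autoImplicit false

namespace Pool.Agent.Helper37.OKD

open Finset Filter Topology Matrix Pool.Agent.Helper69.RK Pool.Agent.Helper31.EC Pool.Agent.Helper31.EC.Sp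
open Pool.Agent.Helper40.EL Pool.Agent.Helper89.LX Pool.Agent.Helper3.LF Pool.Agent.Helper84.MT
open Pool.Agent.Helper7.GZ Pool.Agent.Helper7.RD Pool.Agent.Helper29.MX
open Pool.Agent.Helper63.FRT (rcp rcp_eval rcp_deg exists_coef_bd)

noncomputable section

variable {S : Sp} {M : ℕ} {E : ℕ → ℕ} {ι : Type}

/-! ### subexponential bounds -/

/-- a bound up to `2 ^ (e n)` for all `e` is a bound by a subexponential sequence -/
theorem typ_sub {l : Lab S} (f : ∀ k, (l k).T.Ω → ℝ → Prop)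
    (h : ∀ e : ℝ, 0 < e → Typ (S := l.sp) (fun k (ω : (l k).T.Ω) => f k ω (2 ^ (e * (S.F k).n)))) :
    ∃ K : ℕ → ℝ, S.Sub K ∧ Typ (S := l.sp) (fun k (ω : (l k).T.Ω) => f k ω (K k)) := by
  obtain ⟨K, hK, hT⟩ := Pool.Agent.Helper89.LX.typ_diag (S := l.sp) (fun k (ω : (l k).T.Ω) K => f k ω K)
    (fun η hη => by
      have h1 := (h η hη).eventually (ge_mem_nhds hη)
      filter_upwards [h1] with k hk
      have h2 : (l.sp.F k).n = (S.F k).n := (l k).hn
      rw [h2]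
      exact hk)
  exact ⟨K, (sp_Sub _).mp hK, hT⟩

/-! ### polynomials -/

/-- a polynomial which is bounded on the nodes of the cell of side `r` varies slowly -/
theorem diff_small {D : ℕ} (P : MvPolynomial (Fin M) ℝ) (hP : P.totalDegree ≤ D) (q : Fin M → ℝ) {r A K s : ℝ}
    (hr : 0 < r) (hK : 1 ≤ K) (hs : 0 ≤ s) (hA : ∀ j : Fin M → Fin (D + 1), |MvPolynomial.eval (nodp D q r j) P| ≤ A)
    {y y' : Fin M → ℝ} (hy : ∀ i, |y i - q i| + s ≤ K * r) (hv : ∀ i, |y' i - y i| ≤ s) :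
    |MvPolynomial.eval y' P - MvPolynomial.eval y P| ≤ M * (Cm M D * K ^ (M * D + D) * A) * (s / r) := by
  have hA0 : 0 ≤ A := (abs_nonneg _).trans (hA fun _ => 0)
  have hC0 : 0 ≤ Cm M D := zero_le_one.trans (Cm_one M D)
  have hK0 : 0 ≤ K := zero_le_one.trans hK
  set g : ℝ := Cm M D * K ^ (M * D + D) * A with hg
  have hg0 : 0 ≤ g := by positivity
  have h1 : ∀ x : Fin M → ℝ, (∀ i, |x i - y i| ≤ s) → ∀ a, |MvPolynomial.eval x (MvPolynomial.pderiv a P)| ≤ g / r := by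
    intro x hx a
    have h2 := cell_der D P hP q r K A hr hK hA x (fun i => by
      have := abs_sub_le (x i) (y i) (q i)
      linarith [hx i, hy i]) a
    rw [le_div_iff₀ hr, mul_comm]
    exact h2
  have h3 := row_lip (p := P) (q := y) (y := y') (G := Real.sqrt M * (g / r)) (L := s) (by positivity) hs hv
    (fun x hx e => by
      have h4 := Finset.sum_mul_sq_le_sq_mul_sq (Finset.univ : Finset (Fin M)) e
        (fun a => MvPolynomial.eval x (MvPolynomial.pderiv a P))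
      have h5 : ∑ a, (MvPolynomial.eval x (MvPolynomial.pderiv a P)) ^ 2 ≤ M * (g / r) ^ 2 := by
        calc ∑ a, (MvPolynomial.eval x (MvPolynomial.pderiv a P)) ^ 2 ≤ ∑ _a : Fin M, (g / r) ^ 2 := by
              apply Finset.sum_le_sum
              intro a _
              rw [← sq_abs]
              exact pow_le_pow_left₀ (abs_nonneg _) (h1 x hx a) 2
          _ = _ := by rw [Finset.sum_const, Finset.card_univ, Fintype.card_fin, nsmul_eq_mul]
      have h6 : ∑ a, e a ^ 2 = e ⬝ᵥ e := Finset.sum_congr rfl fun a _ => sq (e a)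
      have h7 : 0 ≤ e ⬝ᵥ e := Finset.sum_nonneg fun i _ => mul_self_nonneg _
      rw [mul_pow, Real.sq_sqrt (Nat.cast_nonneg M)]
      rw [h6] at h4
      refine h4.trans ?_
      rw [mul_comm]
      exact mul_le_mul_of_nonneg_right h5 h7)
  refine h3.trans (le_of_eq ?_)
  have h8 := Real.mul_self_sqrt (Nat.cast_nonneg (α := ℝ) M)
  calc Real.sqrt M * (g / r) * (Real.sqrt M * s) = Real.sqrt M * Real.sqrt M * g * (s / r) := by ring
    _ = _ := by rw [h8]

/-- the derivative of a shifted polynomial -/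
theorem pderiv_shift (v : Fin M → ℝ) (f : MvPolynomial (Fin M) ℝ) (x : Fin M → ℝ) (i : Fin M) :
    MvPolynomial.eval x (MvPolynomial.pderiv i (rcp v (fun _ => 1) f)) =
      MvPolynomial.eval (fun j => x j + v j) (MvPolynomial.pderiv i f) := by
  have h1 := hasDerivAt_pderiv i (rcp v (fun _ => 1) f) x
  have h2 := hasDerivAt_pderiv i f (fun j => x j + v j)
  have h3 : HasDerivAt (fun t : ℝ => t + v i) 1 (x i) := (hasDerivAt_id (x i)).add_const (v i)
  have h4 : HasDerivAt (fun t => MvPolynomial.eval (Function.update (fun j => x j + v j) i (t + v i)) f)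
      (MvPolynomial.eval (fun j => x j + v j) (MvPolynomial.pderiv i f) * 1) (x i) :=
    HasDerivAt.comp (x i) (h₂ := fun t => MvPolynomial.eval (Function.update (fun j => x j + v j) i t) f)
      (h := fun t : ℝ => t + v i) h2 h3
  rw [mul_one] at h4
  have e1 : (fun t => MvPolynomial.eval (Function.update x i t) (rcp v (fun _ => 1) f)) =
      fun t => MvPolynomial.eval (Function.update (fun j => x j + v j) i (t + v i)) f := by
    funext t
    rw [rcp_eval]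
    have e2 : (fun j => v j + 1 * Function.update x i t j) = Function.update (fun j => x j + v j) i (t + v i) := by
      funext j
      by_cases hj : j = i
      · subst hj
        rw [Function.update_self, Function.update_self]
        ring
      · rw [Function.update_of_ne hj, Function.update_of_ne hj]
        ring
    rw [e2]
  rw [e1] at h1
  exact h1.unique h4

/-- coefficients of a shifted polynomial -/
theorem shift_cf (M D : ℕ) : ∃ B : ℝ, 0 ≤ B ∧ ∀ f : MvPolynomial (Fin M) ℝ, f.totalDegree ≤ D → ∀ K : ℝ, 0 ≤ K →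
    (∀ a, |f.coeff a| ≤ K) → ∀ v : Fin M → ℝ, (∀ i, |v i| ≤ 1) → ∀ a, |(rcp v (fun _ => 1) f).coeff a| ≤ B * K := by
  obtain ⟨B, hB, h⟩ := exists_coef_bd M D
  refine ⟨B * (((D : ℝ) + 1) ^ M * 2 ^ D), by positivity, fun f hf K hK hc v hv a => ?_⟩
  have h1 := h (rcp v (fun _ => 1) f) ((rcp_deg _ _ f).trans hf) (((D : ℝ) + 1) ^ M * (K * 2 ^ D)) (fun y hy => by
    rw [rcp_eval]
    refine eval_le_of_coeff f hf K 2 hK (by norm_num) hc _ fun i => ?_
    have h2 := hv i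
    have h3 := hy i
    rw [abs_le] at h2 ⊢
    constructor <;> linarith [h2.1, h2.2, h3.1, h3.2]) a
  refine h1.trans (le_of_eq ?_)
  ring

/-! ### the rows of the differences -/

/-- the row `2 ^ (3 u n / 4) (p_j (x + v) - p_j (x))` -/
def dfr {s : MSys S M E ι} (z : RW s M) (j : Fin M) (ν : Fin M → Fin (z.D + 1)) (k : ℕ) (ω : (z.Z.l k).T.Ω) :
    MvPolynomial (Fin M) ℝ :=
  MvPolynomial.C (2 ^ (3 * z.Z.u / 4 * (S.F k).n)) *
    (rcp (fun i => S.dl 1 k * nod z.D (ν i)) (fun _ => 1) (z.R.p k ω j) - z.R.p k ω j)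

theorem nod_ab (D : ℕ) (j : Fin (D + 1)) : 0 ≤ nod D j ∧ nod D j ≤ 1 := by
  unfold nod
  have h1 : ((j : ℕ) : ℝ) ≤ D := by exact_mod_cast Nat.lt_succ_iff.mp j.2
  constructor
  · positivity
  · rw [div_le_one (by positivity)]
    linarith

theorem dfr_eval {s : MSys S M E ι} (z : RW s M) (j : Fin M) (ν : Fin M → Fin (z.D + 1)) (k : ℕ)
    (ω : (z.Z.l k).T.Ω) (y : Fin M → ℝ) : MvPolynomial.eval y (dfr z j ν k ω) = 2 ^ (3 * z.Z.u / 4 * (S.F k).n) *
      (MvPolynomial.eval (nodp z.D y (S.dl 1 k) ν) (z.R.p k ω j) - MvPolynomial.eval y (z.R.p k ω j)) := by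
  unfold dfr
  rw [map_mul, MvPolynomial.eval_C, map_sub, rcp_eval]
  have e1 : (fun i => S.dl 1 k * nod z.D (ν i) + 1 * y i) = nodp z.D y (S.dl 1 k) ν := by
    funext i
    unfold nodp
    ring
  rw [e1]

theorem dfr_grd {s : MSys S M E ι} (z : RW s M) (j : Fin M) (ν : Fin M → Fin (z.D + 1)) (k : ℕ)
    (ω : (z.Z.l k).T.Ω) (y : Fin M → ℝ) (a : Fin M) : grd (dfr z j ν k ω) y a = 2 ^ (3 * z.Z.u / 4 * (S.F k).n) *
      (grd (z.R.p k ω j) (nodp z.D y (S.dl 1 k) ν) a - grd (z.R.p k ω j) y a) := by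
  unfold grd dfr
  rw [MvPolynomial.pderiv_C_mul, map_mul, MvPolynomial.eval_C, map_sub, map_sub, pderiv_shift]
  rfl

theorem dfr_QR {s : MSys S M E ι} (z : RW s M) {b : ℝ} (h1 : b ≤ 1) (hbu : b = 1 ∨ b + z.Z.u ≤ 1) (hT : Tam z b)
    (j : Fin M) (ν : Fin M → Fin (z.D + 1)) : QR s.Q z.Z.l b (dfr z j ν) := by
  have hu := z.Z.hu
  have hdl : ∀ k, S.dl 1 k ≤ 1 := fun k => (S.dl_anti zero_le_one k).trans_eq (S.dl_zero k)
  have hnear : ∀ k (y : Fin M → ℝ) i, |nodp z.D y (S.dl 1 k) ν i - y i| ≤ S.dl 1 k := by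
    intro k y i
    have h2 := nod_ab z.D (ν i)
    have h3 := S.dl_pos 1 k
    have e1 : nodp z.D y (S.dl 1 k) ν i - y i = S.dl 1 k * nod z.D (ν i) := by
      unfold nodp
      ring
    rw [e1, abs_of_nonneg (mul_nonneg h3.le h2.1)]
    exact mul_le_of_le_one_right h3.le h2.2
  refine ⟨⟨z.D, fun k ω => ?_⟩, ?_, ?_, ?_⟩
  · unfold dfr
    refine (MvPolynomial.totalDegree_mul _ _).trans ?_
    rw [MvPolynomial.totalDegree_C, zero_add]
    exact (MvPolynomial.totalDegree_sub _ _).trans (max_le ((rcp_deg _ _ _).trans (z.R.deg k ω j)) (z.R.deg k ω j))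
  · filter_upwards [z.R.fn] with k hk ω ω' a1 a2 a3 a4
    unfold dfr
    rw [hk ω ω' a1 a2 a3 a4]
  · obtain ⟨K, hK, hcf⟩ := z.R.cf
    obtain ⟨B, hB, hsh⟩ := shift_cf M z.D
    refine ⟨fun k => (B + 1) * K k, z.Λ + 3 * z.Z.u / 4, (S.Sub_const (by positivity)).mul hK, ?_⟩
    filter_upwards [hcf, hK.1] with k hk hK0 ω hω a
    have h2 := hsh (z.R.p k ω j) (z.R.deg k ω j) (K k * 2 ^ (z.Λ * (S.F k).n)) (by positivity) (hk ω hω j)
      (fun i => S.dl 1 k * nod z.D (ν i)) (fun i => by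
        have h2 := nod_ab z.D (ν i)
        have h3 := S.dl_pos 1 k
        rw [abs_of_nonneg (mul_nonneg h3.le h2.1)]
        exact (mul_le_of_le_one_right h3.le h2.2).trans (hdl k)) a
    have h3 := hk ω hω j a
    unfold dfr
    rw [MvPolynomial.coeff_C_mul, MvPolynomial.coeff_sub, abs_mul, abs_of_nonneg (by positivity)]
    have h4 : |MvPolynomial.coeff a (rcp (fun i => S.dl 1 k * nod z.D (ν i)) (fun _ => 1) (z.R.p k ω j)) -
        MvPolynomial.coeff a (z.R.p k ω j)| ≤ (B + 1) * (K k * 2 ^ (z.Λ * (S.F k).n)) := by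
      refine (abs_sub _ _).trans ?_
      linarith
    refine (mul_le_mul_of_nonneg_left h4 (by positivity)).trans (le_of_eq ?_)
    rw [add_mul z.Λ, Real.rpow_add (by norm_num)]
    ring
  · intro L hL
    rcases hbu with rfl | hbu
    · obtain ⟨K, hK, hlp⟩ := z.R.lp (fun k => L k + 1) (hL.add (S.Sub_const zero_le_one))
      refine ⟨fun k => 2 * K k, (S.Sub_const (by norm_num)).mul hK, Typ.mono (S := z.Z.l.sp) hlp ?_⟩
      filter_upwards [hK.1] with k hK0
      intro (ω : (z.Z.l k).T.Ω) _ hh y hy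
      have g1 := hh y (fun i => (hy i).trans (mul_le_mul_of_nonneg_right (by linarith) (S.dl_pos 1 k).le)) j
      have g2 := hh (nodp z.D y (S.dl 1 k) ν) (fun i => by
        have := abs_sub_le (nodp z.D y (S.dl 1 k) ν i) (y i) (s.Q.v k ((z.Z.l k).p.π ω) i)
        rw [add_mul, one_mul]
        linarith [hnear k y i, hy i]) j
      rw [dfr_eval, abs_mul, abs_of_nonneg (by positivity)]
      have g3 : |MvPolynomial.eval (nodp z.D y (S.dl 1 k) ν) (z.R.p k ω j) - MvPolynomial.eval y (z.R.p k ω j)| ≤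
          2 * K k * S.dl z.Z.u k := by
        have := abs_sub_le (MvPolynomial.eval (nodp z.D y (S.dl 1 k) ν) (z.R.p k ω j))
          (MvPolynomial.eval (s.Q.v k ((z.Z.l k).p.π ω)) (z.R.p k ω j)) (MvPolynomial.eval y (z.R.p k ω j))
        rw [abs_sub_comm] at g1
        linarith
      refine (mul_le_mul_of_nonneg_left g3 (by positivity)).trans ?_
      have g4 : (2 : ℝ) ^ (3 * z.Z.u / 4 * (S.F k).n) * S.dl z.Z.u k ≤ 1 := by
        unfold dl
        rw [← Real.rpow_add (by norm_num)]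
        refine Real.rpow_le_one_of_one_le_of_nonpos (by norm_num) ?_
        have := mul_pos hu (S.F k).pos
        nlinarith
      calc (2 : ℝ) ^ (3 * z.Z.u / 4 * (S.F k).n) * (2 * K k * S.dl z.Z.u k) =
          2 * K k * ((2 : ℝ) ^ (3 * z.Z.u / 4 * (S.F k).n) * S.dl z.Z.u k) := by ring
        _ ≤ 2 * K k := mul_le_of_le_one_right (by positivity) g4
    · obtain ⟨K, hK, hlp⟩ := hT (fun _ => 1) (S.Sub_const zero_le_one)
      refine ⟨fun k => M * (Cm M z.D * (L k + 1) ^ (M * z.D + z.D) * K k), ?_, Typ.mono (S := z.Z.l.sp) hlp ?_⟩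
      · refine (S.Sub_const (Nat.cast_nonneg M)).mul (((S.Sub_const (zero_le_one.trans (Cm_one M z.D))).mul ?_).mul hK)
        exact Sub_pow' (hL.add (S.Sub_const zero_le_one)) _
      filter_upwards [hK.1, hL.1] with k hK0 hL0
      intro (ω : (z.Z.l k).T.Ω) _ hh y hy
      have hb0 := S.dl_pos b k
      have h10 := S.dl_pos 1 k
      have hd1 : S.dl 1 k ≤ S.dl b k := S.dl_anti h1 k
      have hA : ∀ μ : Fin M → Fin (z.D + 1), |MvPolynomial.eval (nodp z.D (s.Q.v k ((z.Z.l k).p.π ω)) (S.dl b k) μ)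
          (z.R.p k ω j)| ≤ K k := by
        intro μ
        refine hh _ (fun i => ?_) j
        have h2 := nod_ab z.D (μ i)
        have e1 : nodp z.D (s.Q.v k ((z.Z.l k).p.π ω)) (S.dl b k) μ i - s.Q.v k ((z.Z.l k).p.π ω) i =
            S.dl b k * nod z.D (μ i) := by
          unfold nodp
          ring
        rw [e1, abs_of_nonneg (mul_nonneg hb0.le h2.1), one_mul]
        exact mul_le_of_le_one_right hb0.le h2.2
      have g1 := diff_small (z.R.p k ω j) (z.R.deg k ω j) (s.Q.v k ((z.Z.l k).p.π ω)) (r := S.dl b k) (A := K k)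
        (K := L k + 1) (s := S.dl 1 k) hb0 (by linarith) h10.le hA (y := y) (y' := nodp z.D y (S.dl 1 k) ν)
        (fun i => by
          rw [add_mul, one_mul]
          linarith [hy i]) (hnear k y)
      rw [dfr_eval, abs_mul, abs_of_nonneg (by positivity)]
      refine (mul_le_mul_of_nonneg_left g1 (by positivity)).trans ?_
      have hC0 : 0 ≤ Cm M z.D := zero_le_one.trans (Cm_one M z.D)
      have g4 : (2 : ℝ) ^ (3 * z.Z.u / 4 * (S.F k).n) * (S.dl 1 k / S.dl b k) ≤ 1 := by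
        unfold dl
        rw [← Real.rpow_sub (by norm_num), ← Real.rpow_add (by norm_num)]
        refine Real.rpow_le_one_of_one_le_of_nonpos (by norm_num) ?_
        have := mul_pos hu (S.F k).pos
        have h5 := (S.F k).pos
        have h6 : (b + z.Z.u) * (S.F k).n ≤ 1 * (S.F k).n := mul_le_mul_of_nonneg_right hbu h5.le
        nlinarith
      calc (2 : ℝ) ^ (3 * z.Z.u / 4 * (S.F k).n) *
            (M * (Cm M z.D * (L k + 1) ^ (M * z.D + z.D) * K k) * (S.dl 1 k / S.dl b k)) =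
          (M * (Cm M z.D * (L k + 1) ^ (M * z.D + z.D) * K k)) *
            ((2 : ℝ) ^ (3 * z.Z.u / 4 * (S.F k).n) * (S.dl 1 k / S.dl b k)) := by ring
        _ ≤ M * (Cm M z.D * (L k + 1) ^ (M * z.D + z.D) * K k) := mul_le_of_le_one_right (by positivity) g4

/-! ### the variation of the Jacobian -/

theorem jac_var_of {s : MSys S M E ι} {z : RW s M} {b : ℝ} (h1 : b ≤ 1) (hbu : b = 1 ∨ b + z.Z.u ≤ 1) (hT : Tam z b)
    (hdom : ∀ q : ∀ k, (z.Z.l k).T.Ω → MvPolynomial (Fin M) ℝ, QR s.Q z.Z.l b q →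
      ∀ e : ℝ, 0 < e → Typ (S := z.Z.l.sp) (fun k (ω : (z.Z.l k).T.Ω) => ∀ i,
        |(grd (q k ω) (s.Q.v k ((z.Z.l k).p.π ω)) ᵥ* (jac (z.R.p k ω) (s.Q.v k ((z.Z.l k).p.π ω)))⁻¹) i| ≤
          2 ^ (e * (S.F k).n))) (L : ℕ → ℝ) (hL : S.Sub L) :
    ∃ K : ℕ → ℝ, S.Sub K ∧ Typ (S := z.Z.l.sp) (fun k (ω : (z.Z.l k).T.Ω) => ∀ y : Fin M → ℝ,
      (∀ i, |y i - s.Q.v k ((z.Z.l k).p.π ω) i| ≤ L k * S.dl 1 k) → ∀ j r,
        |((jac (z.R.p k ω) y - jac (z.R.p k ω) (s.Q.v k ((z.Z.l k).p.π ω))) *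
          (jac (z.R.p k ω) (s.Q.v k ((z.Z.l k).p.π ω)))⁻¹) j r| ≤ K k * S.dl (z.Z.u / 2) k) := by
  have hu := z.Z.hu
  have h2 : Typ (S := z.Z.l.sp) (fun k (ω : (z.Z.l k).T.Ω) => ∀ p : Fin M × (Fin M → Fin (z.D + 1)), ∀ i,
      |(grd (dfr z p.1 p.2 k ω) (s.Q.v k ((z.Z.l k).p.π ω)) ᵥ* (jac (z.R.p k ω) (s.Q.v k ((z.Z.l k).p.π ω)))⁻¹) i| ≤
        2 ^ (z.Z.u / 4 * (S.F k).n)) :=
    Typ_all (S := z.Z.l.sp) _ fun p => hdom _ (dfr_QR z h1 hbu hT p.1 p.2) (z.Z.u / 4) (by positivity)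
  refine ⟨fun k => Cu z.D * (L k + 1) ^ z.D * Cm M z.D, ?_, Typ.mono (S := z.Z.l.sp) h2 ?_⟩
  · refine ((S.Sub_const (zero_le_one.trans (Cu_one z.D))).mul ?_).mul (S.Sub_const (zero_le_one.trans (Cm_one M z.D)))
    exact Sub_pow' (hL.add (S.Sub_const zero_le_one)) _
  filter_upwards [hL.1] with k hL0
  intro (ω : (z.Z.l k).T.Ω) _ hh y hy j r
  set Q : Fin M → ℝ := s.Q.v k ((z.Z.l k).p.π ω) with hQ
  set J : Matrix (Fin M) (Fin M) ℝ := (jac (z.R.p k ω) Q)⁻¹ with hJ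
  set g : MvPolynomial (Fin M) ℝ := (∑ a, MvPolynomial.C (J a r) * MvPolynomial.pderiv a (z.R.p k ω j)) -
    MvPolynomial.C (∑ a, J a r * MvPolynomial.eval Q (MvPolynomial.pderiv a (z.R.p k ω j))) with hg
  have hgd : g.totalDegree ≤ z.D := by
    refine (MvPolynomial.totalDegree_sub _ _).trans (max_le ?_ ?_)
    · refine (MvPolynomial.totalDegree_finsetSum _ _).trans (Finset.sup_le fun a _ => ?_)
      refine (MvPolynomial.totalDegree_mul _ _).trans ?_
      rw [MvPolynomial.totalDegree_C, zero_add]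
      exact (totalDegree_pderiv_le a _).trans (z.R.deg k ω j)
    · rw [MvPolynomial.totalDegree_C]
      exact Nat.zero_le _
  have hge : ∀ x : Fin M → ℝ, MvPolynomial.eval x g =
      ((fun a => grd (z.R.p k ω j) x a - grd (z.R.p k ω j) Q a) ᵥ* J) r := by
    intro x
    rw [hg, map_sub, map_sum, MvPolynomial.eval_C, ← Finset.sum_sub_distrib]
    show _ = ∑ a, (grd (z.R.p k ω j) x a - grd (z.R.p k ω j) Q a) * J a r
    refine Finset.sum_congr rfl fun a _ => ?_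
    rw [map_mul, MvPolynomial.eval_C]
    unfold grd
    ring
  have hnod : ∀ μ : Fin M → Fin (z.D + 1), |MvPolynomial.eval (nodp z.D Q (S.dl 1 k) μ) g| ≤ S.dl (z.Z.u / 2) k := by
    intro μ
    have g1 := hh (j, μ) r
    have g2 : (grd (dfr z j μ k ω) Q ᵥ* J) r =
        2 ^ (3 * z.Z.u / 4 * (S.F k).n) * MvPolynomial.eval (nodp z.D Q (S.dl 1 k) μ) g := by
      rw [hge]
      show ∑ a, grd (dfr z j μ k ω) Q a * J a r = _ * ∑ a, _ * J a r
      rw [Finset.mul_sum]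
      refine Finset.sum_congr rfl fun a _ => ?_
      rw [dfr_grd]
      ring
    have g3 : |2 ^ (3 * z.Z.u / 4 * (S.F k).n) * MvPolynomial.eval (nodp z.D Q (S.dl 1 k) μ) g| ≤
        2 ^ (z.Z.u / 4 * (S.F k).n) := by
      rw [← g2]
      exact g1
    rw [abs_mul, abs_of_nonneg (by positivity)] at g3
    have g4 : (2 : ℝ) ^ (z.Z.u / 4 * (S.F k).n) =
        2 ^ (3 * z.Z.u / 4 * (S.F k).n) * S.dl (z.Z.u / 2) k := by
      unfold dl
      rw [← Real.rpow_add (by norm_num)]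
      congr 1
      ring
    rw [g4] at g3
    exact le_of_mul_le_mul_left g3 (by positivity)
  have h3 := cell_growth z.D g hgd Q (S.dl 1 k) (L k + 1) (S.dl (z.Z.u / 2) k) (S.dl_pos 1 k) (by linarith) hnod y
    (fun i => (hy i).trans (mul_le_mul_of_nonneg_right (by linarith) (S.dl_pos 1 k).le))
  have h4 : ((jac (z.R.p k ω) y - jac (z.R.p k ω) Q) * J) j r = MvPolynomial.eval y g := by
    rw [hge]
    rfl
  rw [h4]
  refine h3.trans (le_of_eq ?_)
  ring

/-- VARIATION OF THE JACOBIAN at the distance of the finest resolution, and its inverse -/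
theorem jac_var [Finite ι] {s : MSys S M E ι} {R : Rsl S} (hR : Pt s R) {z : RW s M} {lam : Fin M → ℝ}
    (hK : KLb s R z.Z.c z.Z.l) (hF : Flg z lam) (hO : OptLam z R lam) (L : ℕ → ℝ) (hL : S.Sub L) :
    ∃ K : ℕ → ℝ, S.Sub K ∧ Typ (S := z.Z.l.sp) (fun k (ω : (z.Z.l k).T.Ω) => ∀ y : Fin M → ℝ,
      (∀ i, |y i - s.Q.v k ((z.Z.l k).p.π ω) i| ≤ L k * S.dl 1 k) → ∀ j r,
        |((jac (z.R.p k ω) y - jac (z.R.p k ω) (s.Q.v k ((z.Z.l k).p.π ω))) *
          (jac (z.R.p k ω) (s.Q.v k ((z.Z.l k).p.π ω)))⁻¹) j r| ≤ K k * S.dl (z.Z.u / 2) k) := by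
  obtain ⟨b, _, h1, _, hbu, hT, _, hdom⟩ := exists_lev hR hK hF hO
  exact jac_var_of h1 hbu hT hdom L hL

/-- the inverse of the Jacobian -/
theorem jac_inv_le [Finite ι] {s : MSys S M E ι} {R : Rsl S} (hR : Pt s R) {z : RW s M} {lam : Fin M → ℝ}
    (hK : KLb s R z.Z.c z.Z.l) (hF : Flg z lam) (hO : OptLam z R lam) :
    ∃ K : ℕ → ℝ, S.Sub K ∧ Typ (S := z.Z.l.sp) (fun k (ω : (z.Z.l k).T.Ω) => ∀ r i,
      |(jac (z.R.p k ω) (s.Q.v k ((z.Z.l k).p.π ω)))⁻¹ r i| ≤ K k * S.dl z.Z.c k) := by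
  obtain ⟨b, _, _, _, _, _, hinv, _⟩ := exists_lev hR hK hF hO
  refine typ_sub (fun k (ω : (z.Z.l k).T.Ω) K => ∀ r i,
    |(jac (z.R.p k ω) (s.Q.v k ((z.Z.l k).p.π ω)))⁻¹ r i| ≤ K * S.dl z.Z.c k) fun e he => ?_
  refine Typ.mono (S := z.Z.l.sp) (hinv e he) (Eventually.of_forall fun k ω _ hh r i => (hh r i).trans (le_of_eq ?_))
  unfold dl
  rw [← Real.rpow_add (by norm_num)]
  congr 1
  ring

/-- domination with a subexponential bound -/
theorem dom_sub [Finite ι] {s : MSys S M E ι} {z : RW s M} {b : ℝ}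
    (hdom : ∀ q : ∀ k, (z.Z.l k).T.Ω → MvPolynomial (Fin M) ℝ, QR s.Q z.Z.l b q →
      ∀ e : ℝ, 0 < e → Typ (S := z.Z.l.sp) (fun k (ω : (z.Z.l k).T.Ω) => ∀ i,
        |(grd (q k ω) (s.Q.v k ((z.Z.l k).p.π ω)) ᵥ* (jac (z.R.p k ω) (s.Q.v k ((z.Z.l k).p.π ω)))⁻¹) i| ≤
          2 ^ (e * (S.F k).n))) {q : ∀ k, (z.Z.l k).T.Ω → MvPolynomial (Fin M) ℝ} (hq : QR s.Q z.Z.l b q) :
    ∃ K : ℕ → ℝ, S.Sub K ∧ Typ (S := z.Z.l.sp) (fun k (ω : (z.Z.l k).T.Ω) => ∀ i,
      |(grd (q k ω) (s.Q.v k ((z.Z.l k).p.π ω)) ᵥ* (jac (z.R.p k ω) (s.Q.v k ((z.Z.l k).p.π ω)))⁻¹) i| ≤ K k) :=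
  typ_sub (fun k (ω : (z.Z.l k).T.Ω) K => ∀ i,
    |(grd (q k ω) (s.Q.v k ((z.Z.l k).p.π ω)) ᵥ* (jac (z.R.p k ω) (s.Q.v k ((z.Z.l k).p.π ω)))⁻¹) i| ≤ K)
    fun e he => hdom q hq e he

end

end Pool.Agent.Helper37.OKD
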