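import Pool.Agent.Helper7.RD.Kv

/-! VOLUME OF ROWS which are tame at the finest resolution: the rows of a label give forms of the point; if their Jacobian is
typically at least `2 ^ (λ n)`, the volume is at most `M` minus the mean of `λ`. -/

set_option autoImplicit false

namespace Pool.Agent.Helper37.OKD

open Finset Filter Topology Matrix Pool.Agent.Helper69.RK Pool.Agent.Helper31.EC Pool.Agent.Helper31.EC.Sp
open Pool.Agent.Helper40.EL Pool.Agent.Helper89.LX Pool.Agent.Helper3.LF Pool.Agent.Helper84.MT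
open Pool.Agent.Helper7.GZ Pool.Agent.Helper7.RD

noncomputable section

variable {S : Sp} {M : ℕ}

theorem jac_smul {m : ℕ} (r : ℝ) (P : Fin m → MvPolynomial (Fin M) ℝ) (x : Fin M → ℝ) :
    jac (fun j => r • P j) x = r • jac P x := by
  ext i a
  show MvPolynomial.eval x (MvPolynomial.pderiv a (r • P i)) = r • MvPolynomial.eval x (MvPolynomial.pderiv a (P i))
  rw [Derivation.map_smul, MvPolynomial.smul_eval, smul_eq_mul]

/-- VOLUME OF ROWS -/
theorem volCO_rows {Q : S.VV M} {κ : Type} [Finite κ] {A : κ → Part S} {l : Lab S} (hl : l.DMf A) {C : Part S}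
    (hC : (LC.kz C).ev l) (p : ∀ k, (l k).T.Ω → Fin M → MvPolynomial (Fin M) ℝ) {D : ℕ} {Λ : ℝ}
    (deg : ∀ k ω j, (p k ω j).totalDegree ≤ D)
    (fn : ∀ᶠ k in UF, ∀ ω ω', (l k).T.μ ω ≠ 0 → (l k).T.μ ω' ≠ 0 → (l k).T.Z ω ω' → (l k).V ω ω' → p k ω = p k ω')
    (cf : ∃ K : ℕ → ℝ, S.Sub K ∧ ∀ᶠ k in UF, ∀ ω, (l k).T.μ ω ≠ 0 → ∀ j a,
      |(p k ω j).coeff a| ≤ K k * 2 ^ (Λ * (S.F k).n))
    (bd : ∃ K : ℕ → ℝ, S.Sub K ∧ Typ (S := l.sp) (fun k (ω : (l k).T.Ω) => ∀ j,
      |MvPolynomial.eval (Q.v k ((l k).p.π ω)) (p k ω j)| ≤ K k))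
    (tm : ∀ L : ℕ → ℝ, S.Sub L → ∃ K : ℕ → ℝ, S.Sub K ∧ Typ (S := l.sp) (fun k (ω : (l k).T.Ω) =>
      ∀ y : Fin M → ℝ, (∀ i, |y i - Q.v k ((l k).p.π ω) i| ≤ L k * S.dl 1 k) → ∀ j,
        |MvPolynomial.eval y (p k ω j) - MvPolynomial.eval (Q.v k ((l k).p.π ω)) (p k ω j)| ≤ K k))
    (lam : ∀ k, (l k).T.Ω → ℝ) (Cl : ℝ) (hlb : ∀ᶠ k in UF, ∀ ω, (l k).T.μ ω ≠ 0 → |lam k ω| ≤ Cl)
    (K : ℕ → ℝ) (hK : S.Sub K) (hdet : Typ (S := l.sp) (fun k (ω : (l k).T.Ω) =>
      2 ^ (2 * lam k ω * (S.F k).n) ≤ K k * (jac (p k ω) (Q.v k ((l k).p.π ω))).det ^ 2)) :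
    volCO (LC.kz C) A Q ≤ M - ul (fun k => ∑ ω, (l k).T.μ ω * lam k ω) := by
  have key : ∀ η : ℝ, 0 < η → η ≤ 1 → volCO (LC.kz C) A Q ≤ M - ul (fun k => ∑ ω, (l k).T.μ ω * lam k ω) + M * η := by
    intro η hη hη1
    let Z : ZU S := { l := l, c := 0, u := η, h0 := le_rfl, hu := hη, h1 := by linarith }
    have hd0 : ∀ k, 0 < S.dl η k := fun k => S.dl_pos η k
    have hd1 : ∀ k, S.dl η k ≤ 1 := fun k => by
      rw [← S.dl_zero k]
      exact S.dl_anti hη.le k
    let R : Rows Q Z.l M D Λ Z.u :=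
      { p := fun k ω j => S.dl η k • p k ω j
        deg := fun k ω j => (MvPolynomial.totalDegree_smul_le _ _).trans (deg k ω j)
        fn := by
          filter_upwards [fn] with k hk ω ω' a b c d
          rw [hk ω ω' a b c d]
        cf := by
          obtain ⟨K, hK, h⟩ := cf
          refine ⟨K, hK, ?_⟩
          filter_upwards [h, hK.1] with k hk h0 ω hω j a
          rw [MvPolynomial.coeff_smul, smul_eq_mul, abs_mul, abs_of_pos (hd0 k)]
          exact (mul_le_of_le_one_left (abs_nonneg _) (hd1 k)).trans (hk ω hω j a)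
        bd := by
          obtain ⟨K, hK, h⟩ := bd
          refine ⟨K, hK, h.mono (Eventually.of_forall fun k ω _ hh j => ?_)⟩
          rw [MvPolynomial.smul_eval, abs_mul, abs_of_pos (hd0 k)]
          exact (mul_le_of_le_one_left (abs_nonneg _) (hd1 k)).trans (hh j)
        lp := by
          intro L hL
          obtain ⟨K, hK, h⟩ := tm L hL
          refine ⟨K, hK, h.mono (Eventually.of_forall fun k ω _ hh y hy j => ?_)⟩
          rw [MvPolynomial.smul_eval, MvPolynomial.smul_eval, ← mul_sub, abs_mul, abs_of_pos (hd0 k), mul_comm]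
          exact mul_le_mul_of_nonneg_right (hh y hy j) (hd0 k).le }
    let z : PZ Z Q M := ⟨D, Λ, R, rQ Z R, rQ_isX Z R⟩
    have h1 := z.volCO_le (A := A) (B := fun i => upz Z (A i)) hl (fun i => ⟨i, PLe.refl _⟩) hC
      (fun k ω => lam k ω - M * η) (Cl + M * η) (by
        filter_upwards [hlb] with k hk ω hω
        have h2 : |(M : ℝ) * η| = M * η := abs_of_nonneg (by positivity)
        have h3 := abs_sub (lam k ω) (M * η)
        rw [h2] at h3
        linarith [hk ω hω]) K hK (hdet.mono (Eventually.of_forall fun k ω _ hh => by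
        have e1 : jac (R.p k ω) (Q.v k ((Z.l k).p.π ω)) = S.dl η k • jac (p k ω) (Q.v k ((l k).p.π ω)) :=
          jac_smul _ _ _
        rw [e1, Matrix.det_smul, Fintype.card_fin, mul_pow]
        have e2 : (2 : ℝ) ^ (2 * (lam k ω - M * η) * (S.F k).n) =
            2 ^ (2 * lam k ω * (S.F k).n) * (S.dl η k ^ M) ^ 2 := by
          have e3 : S.dl η k ^ M = 2 ^ (-(η * (S.F k).n) * M) := by
            show (2 ^ (-(η * (S.F k).n))) ^ M = (2 : ℝ) ^ (-(η * (S.F k).n) * M)
            rw [← Real.rpow_natCast, ← Real.rpow_mul (by norm_num)]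
          rw [e3, sq, ← Real.rpow_add (by norm_num), ← Real.rpow_add (by norm_num)]
          congr 1
          ring
        rw [e2]
        have h4 : (0 : ℝ) ≤ (S.dl η k ^ M) ^ 2 := by positivity
        have h5 := mul_le_mul_of_nonneg_right hh h4
        have e4 : K k * ((S.dl η k ^ M) ^ 2 * (jac (p k ω) (Q.v k ((l k).p.π ω))).det ^ 2) =
            K k * (jac (p k ω) (Q.v k ((l k).p.π ω))).det ^ 2 * (S.dl η k ^ M) ^ 2 := by ring
        rw [e4]
        exact h5))
    have hU : UB (fun k => ∑ ω, (l k).T.μ ω * lam k ω) := by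
      refine ⟨Cl, ?_⟩
      filter_upwards [hlb] with k hk
      refine (Finset.abs_sum_le_sum_abs _ _).trans ?_
      have h1 : ∀ ω ∈ (Finset.univ : Finset (l k).T.Ω), |(l k).T.μ ω * lam k ω| ≤ (l k).T.μ ω * Cl := by
        intro ω _
        rw [abs_mul, abs_of_nonneg ((l k).T.nn ω)]
        by_cases h0 : (l k).T.μ ω = 0
        · rw [h0, zero_mul, zero_mul]
        · exact mul_le_mul_of_nonneg_left (hk ω h0) ((l k).T.nn ω)
      refine (Finset.sum_le_sum h1).trans (le_of_eq ?_)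
      rw [← Finset.sum_mul, Pool.Agent.Helper3.PR.sum_mu, one_mul]
    have e5 : (fun k => ∑ ω, (Z.l k).T.μ ω * (lam k ω - M * η)) =
        fun k => (∑ ω, (l k).T.μ ω * lam k ω) + (-(M * η)) := by
      funext k
      show ∑ ω, (l k).T.μ ω * (lam k ω - M * η) = _
      simp_rw [mul_sub]
      rw [Finset.sum_sub_distrib, ← Finset.sum_mul, Pool.Agent.Helper3.PR.sum_mu, one_mul]
      ring
    rw [e5, ul_add hU ⟨M * η, Eventually.of_forall fun k => by rw [abs_neg, abs_of_nonneg (by positivity)]⟩] at h1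
    have e6 : ul (fun _ => -((M : ℝ) * η)) = -(M * η) := ul_const _
    rw [e6] at h1
    have h6 : 0 ≤ Z.u * (M - volCO (LC.kz (upz Z C)) (fun i => upz Z (A i)) z.X) :=
      mul_nonneg Z.hu.le (sub_nonneg.2 volCO_le_M)
    linarith
  by_contra hc
  rw [not_le] at hc
  set X := ul (fun k => ∑ ω, (l k).T.μ ω * lam k ω) with hX
  set ε := volCO (LC.kz C) A Q - (M - X) with hε
  have hε0 : 0 < ε := by rw [hε]; linarith
  have h2 : (0 : ℝ) < M + 1 := by positivity
  have h1 := key (min 1 (ε / (2 * (M + 1)))) (lt_min one_pos (by positivity)) (min_le_left _ _)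
  have h3 : (M : ℝ) * min 1 (ε / (2 * (M + 1))) ≤ ε / 2 := by
    have h4 : (M : ℝ) * min 1 (ε / (2 * (M + 1))) ≤ (M + 1) * (ε / (2 * (M + 1))) :=
      mul_le_mul (by linarith) (min_le_right _ _) (le_min zero_le_one (by positivity)) (by linarith)
    have e1 : ((M : ℝ) + 1) * (ε / (2 * (M + 1))) = ε / 2 := by
      field_simp
    linarith
  linarith

end

end Pool.Agent.Helper37.OKD
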