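import Pool.Agent.Helper87.NSL.Inv
import Pool.Agent.Helper84.MT.Row
import Pool.Agent.Helper37.OKD.Vr

/-! DOMINATION BY OPTIMAL ROWS: the rows of a K-label of the window `c` with the optimal Jacobian `J` dominate every other
admissible row `q` over the same label: typically all the coefficients of the gradient of `q` in the rows of `J` are at most
`2 ^ (o(n))`. Otherwise one of the rows could be replaced by `q` and the volume would be too small. In particular the inverse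
of the Jacobian has size at most `2 ^ (-c n + o(n))`. -/

set_option autoImplicit false

namespace Pool.Agent.Helper37.OKD

open Finset Filter Topology Matrix Pool.Agent.Helper69.RK Pool.Agent.Helper31.EC Pool.Agent.Helper31.EC.Sp
open Pool.Agent.Helper40.EL Pool.Agent.Helper89.LX Pool.Agent.Helper3.LF Pool.Agent.Helper84.MT
open Pool.Agent.Helper7.GZ Pool.Agent.Helper7.RD
open Pool.Agent.Helper87.NSL (cndR KnS)

noncomputable section

variable {S : Sp} {M : ℕ} {E : ℕ → ℕ} {ι : Type}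

/-! ### linear algebra -/

/-- exchange of a row -/
theorem det_row (J : Matrix (Fin M) (Fin M) ℝ) (hJ : J.det ≠ 0) (i : Fin M) (v : Fin M → ℝ) :
    (J.updateRow i v).det = J.det * (v ᵥ* J⁻¹) i := by
  have h1 : J⁻¹ = (J.det)⁻¹ • J.adjugate := by
    rw [Matrix.inv_def, Ring.inverse_eq_inv']
  rw [← Matrix.cramer_transpose_apply, Matrix.cramer_eq_adjugate_mulVec, ← Matrix.adjugate_transpose,
    Matrix.mulVec_transpose, h1, Matrix.vecMul_smul, Pi.smul_apply, smul_eq_mul, ← mul_assoc, mul_inv_cancel₀ hJ,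
    one_mul]

/-- the gradient of a polynomial -/
def grd (q : MvPolynomial (Fin M) ℝ) (x : Fin M → ℝ) : Fin M → ℝ := fun a =>
  MvPolynomial.eval x (MvPolynomial.pderiv a q)

/-- the coefficient which is too large -/
def ixf (b : ℝ) (v : Fin M → ℝ) : Option (Fin M) := by
  classical exact if h : ∃ i : Fin M, ¬ |v i| ≤ b then some h.choose else none

theorem ixf_none {b : ℝ} {v : Fin M → ℝ} (h : ixf b v = none) (i : Fin M) : |v i| ≤ b := by
  unfold ixf at h
  by_contra hc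
  rw [dif_pos ⟨i, hc⟩] at h
  exact absurd h (by simp)

theorem ixf_some {b : ℝ} {v : Fin M → ℝ} {i : Fin M} (h : ixf b v = some i) : b < |v i| := by
  unfold ixf at h
  split_ifs at h with h1
  rw [Option.some.injEq] at h
  have h2 := h1.choose_spec
  rw [h, not_le] at h2
  exact h2

/-- a row is replaced by `q` -/
def nrow (q : MvPolynomial (Fin M) ℝ) (o : Option (Fin M)) (P : Fin M → MvPolynomial (Fin M) ℝ) :
    Fin M → MvPolynomial (Fin M) ℝ :=
  match o with
  | none => P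
  | some i => Function.update P i q

theorem nrow_none (q : MvPolynomial (Fin M) ℝ) (P : Fin M → MvPolynomial (Fin M) ℝ) : nrow q none P = P := rfl

theorem nrow_cases {p : MvPolynomial (Fin M) ℝ → Prop} {q : MvPolynomial (Fin M) ℝ} {o : Option (Fin M)}
    {P : Fin M → MvPolynomial (Fin M) ℝ} (h1 : ∀ j, p (P j)) (h2 : p q) (j : Fin M) : p (nrow q o P j) := by
  rcases o with _ | i
  · exact h1 j
  · show p (Function.update P i _ j)
    by_cases hj : j = i
    · subst hj
      rw [Function.update_self]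
      exact h2
    · rw [Function.update_of_ne hj]
      exact h1 j

theorem jac_nrow (q : MvPolynomial (Fin M) ℝ) (i : Fin M) (P : Fin M → MvPolynomial (Fin M) ℝ) (x : Fin M → ℝ) :
    jac (nrow q (some i) P) x = (jac P x).updateRow i (grd q x) := by
  ext j a
  by_cases hi : j = i
  · subst hi
    rw [Matrix.updateRow_self]
    show MvPolynomial.eval x (MvPolynomial.pderiv a (Function.update P j q j)) = _
    rw [Function.update_self]
    rfl
  · rw [Matrix.updateRow_ne hi]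
    show MvPolynomial.eval x (MvPolynomial.pderiv a (Function.update P i _ j)) =
      MvPolynomial.eval x (MvPolynomial.pderiv a (P j))
    rw [Function.update_of_ne hi]

/-- the determinant of a triangular family -/
theorem det_tri {P : Fin M → MvPolynomial (Fin M) ℝ} (h : ∀ j, ∀ i ∈ (P j).vars, i ≤ j) (x : Fin M → ℝ) :
    (jac P x).det = ∏ j, MvPolynomial.eval x (MvPolynomial.pderiv j (P j)) := by
  rw [Matrix.det_of_isLowerTriangular]
  · rfl
  · intro i j hij
    have hij' : i < j := hij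
    show MvPolynomial.eval x (MvPolynomial.pderiv j (P i)) = 0
    rw [MvPolynomial.pderiv_eq_zero_of_notMem_vars (fun hm => absurd (h i j hm) (not_le.mpr hij')), map_zero]

/-! ### labels with a literal function of the label and of the point -/

theorem kz_addW {Q : S.VV M} {R : ∀ k, Setoid (S.F k).Ω} (hR : KnS R Q.v) {l : Lab S}
    (hl : (LC.kz fun k => fc (R k)).ev l) {β : Type} (b : ∀ k, (l k).T.Ω → β)
    (hb : ∀ᶠ k in UF, ∀ ω ω', (l k).T.μ ω ≠ 0 → (l k).T.μ ω' ≠ 0 → (l k).T.Z ω ω' → (l k).V ω ω' →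
      Q.v k ((l k).p.π ω) = Q.v k ((l k).p.π ω') → b k ω = b k ω') :
    (LC.kz fun k => fc (R k)).ev (l.addW fun k => Setoid.ker (b k)) := by
  filter_upwards [hl, hR, hb] with k h1 h2 h3
  have h1' : (l k).leak (fc (R k)) = 0 := h1
  have h4 := (l k).addW_leak_le (Setoid.ker (b k)) (fc (R k))
  rw [h1', zero_add] at h4
  have h5 : h (fc (Setoid.ker (b k)) : FL (l k).T) ((l k).v ⊔ (l k).p.map (fc (R k))) = 0 := by
    refine h_zero ?_
    have e1 : (l k).v ⊔ (l k).p.map (fc (R k)) = fc ((l k).V ⊓ Setoid.comap (l k).p.π (R k)) := (fc_inf _ _).symm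
    rw [e1]
    refine fc_le fun ω ω' a b' z v => ?_
    exact h3 ω ω' a b' z v.1 (h2 _ _ ((l k).p.supp ω a) ((l k).p.supp ω' b') (((l k).p.hZ ω ω' a b').mp z) v.2)
  rw [h5] at h4
  exact le_antisymm h4 (FLab.leak_nonneg _ _)

/-- DOMINATION BY OPTIMAL ROWS -/
theorem dom_typ {κ : Type} [Finite κ] {A : κ → Part S} (Q : S.VV M) {R : ∀ k, Setoid (S.F k).Ω} (hR : KnS R Q.v)
    {l : Lab S} (hl : l.DMf A) (hlz : (LC.kz fun k => fc (R k)).ev l)
    (p : ∀ k, (l k).T.Ω → Fin M → MvPolynomial (Fin M) ℝ) {D : ℕ} {Λ : ℝ}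
    (deg : ∀ k ω j, (p k ω j).totalDegree ≤ D)
    (fn : ∀ᶠ k in UF, ∀ ω ω', (l k).T.μ ω ≠ 0 → (l k).T.μ ω' ≠ 0 → (l k).T.Z ω ω' → (l k).V ω ω' → p k ω = p k ω')
    (cf : ∃ K : ℕ → ℝ, S.Sub K ∧ ∀ᶠ k in UF, ∀ ω, (l k).T.μ ω ≠ 0 → ∀ j a,
      |(p k ω j).coeff a| ≤ K k * 2 ^ (Λ * (S.F k).n))
    (bd : ∃ K : ℕ → ℝ, S.Sub K ∧ Typ (S := l.sp) (fun k (ω : (l k).T.Ω) => ∀ j,
      |MvPolynomial.eval (Q.v k ((l k).p.π ω)) (p k ω j)| ≤ K k))
    (tm : ∀ L : ℕ → ℝ, S.Sub L → ∃ K : ℕ → ℝ, S.Sub K ∧ Typ (S := l.sp) (fun k (ω : (l k).T.Ω) =>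
      ∀ y : Fin M → ℝ, (∀ i, |y i - Q.v k ((l k).p.π ω) i| ≤ L k * S.dl 1 k) → ∀ j,
        |MvPolynomial.eval y (p k ω j) - MvPolynomial.eval (Q.v k ((l k).p.π ω)) (p k ω j)| ≤ K k))
    (tri : ∀ k ω j, ∀ i ∈ (p k ω j).vars, i ≤ j) (lam : Fin M → ℝ)
    (ex : ∀ e : ℝ, 0 < e → Typ (S := l.sp) (fun k (ω : (l k).T.Ω) => ∀ j,
      2 ^ ((lam j - e) * (S.F k).n) ≤ |MvPolynomial.eval (Q.v k ((l k).p.π ω)) (MvPolynomial.pderiv j (p k ω j))|))
    (hsum : M - volCO (LC.kz fun k => fc (R k)) A Q ≤ ∑ j, lam j)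
    (q : ∀ k, (l k).T.Ω → MvPolynomial (Fin M) ℝ) {D' : ℕ} {Λ' : ℝ} (qdeg : ∀ k ω, (q k ω).totalDegree ≤ D')
    (qfn : ∀ᶠ k in UF, ∀ ω ω', (l k).T.μ ω ≠ 0 → (l k).T.μ ω' ≠ 0 → (l k).T.Z ω ω' → (l k).V ω ω' → q k ω = q k ω')
    (qcf : ∃ K : ℕ → ℝ, S.Sub K ∧ ∀ᶠ k in UF, ∀ ω, (l k).T.μ ω ≠ 0 → ∀ a,
      |(q k ω).coeff a| ≤ K k * 2 ^ (Λ' * (S.F k).n))
    (qbd : ∃ K : ℕ → ℝ, S.Sub K ∧ Typ (S := l.sp) (fun k (ω : (l k).T.Ω) =>
      |MvPolynomial.eval (Q.v k ((l k).p.π ω)) (q k ω)| ≤ K k))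
    (qtm : ∀ L : ℕ → ℝ, S.Sub L → ∃ K : ℕ → ℝ, S.Sub K ∧ Typ (S := l.sp) (fun k (ω : (l k).T.Ω) =>
      ∀ y : Fin M → ℝ, (∀ i, |y i - Q.v k ((l k).p.π ω) i| ≤ L k * S.dl 1 k) →
        |MvPolynomial.eval y (q k ω) - MvPolynomial.eval (Q.v k ((l k).p.π ω)) (q k ω)| ≤ K k)) :
    ∀ e : ℝ, 0 < e → Typ (S := l.sp) (fun k (ω : (l k).T.Ω) => ∀ i,
      |(grd (q k ω) (Q.v k ((l k).p.π ω)) ᵥ* (jac (p k ω) (Q.v k ((l k).p.π ω)))⁻¹) i| ≤ 2 ^ (e * (S.F k).n)) := by
  classical
  intro e he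
  -- the index
  set idx : ∀ k, (l k).T.Ω → Option (Fin M) := fun k ω =>
    ixf (2 ^ (e * (S.F k).n)) (grd (q k ω) (Q.v k ((l k).p.π ω)) ᵥ* (jac (p k ω) (Q.v k ((l k).p.π ω)))⁻¹) with hidx
  set l' : Lab S := ixl l idx with hl'
  have hz' : (LC.kz fun k => fc (R k)).ev l' := by
    refine kz_addW hR hlz idx ?_
    filter_upwards [fn, qfn] with k h1 h1' ω ω' a b z v hQ
    have h2 := h1 ω ω' a b z v
    have h3 := h1' ω ω' a b z v
    rw [hidx]
    beta_reduce
    rw [h2, h3, hQ]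
  have hd' : l'.DMf A := ixl_DMf hl idx
  -- the probability of the bad event
  set Bad : ∀ k, (l k).T.Ω → Prop := fun k ω => idx k ω ≠ none with hBad
  have hUB : UB (fun k => (l k).T.pb (Bad k)) := ⟨1, Eventually.of_forall fun k => by
    show |(l k).T.pb (Bad k)| ≤ 1
    rw [abs_of_nonneg (FSp.pb_nonneg _ _)]
    exact FSp.pb_le_one _ _⟩
  set P : ℝ := ul (fun k => (l k).T.pb (Bad k)) with hP
  obtain ⟨K1, hK1, hcf⟩ := cf
  obtain ⟨K2, hK2, hqcf⟩ := qcf
  obtain ⟨K3, hK3, hbd⟩ := bd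
  obtain ⟨K4, hK4, hqbd⟩ := qbd
  have key : ∀ ε : ℝ, 0 < ε → e * P ≤ M * ε := by
    intro ε hε
    set lam' : ∀ k, (l k).T.Ω → ℝ := fun k ω => (∑ j, lam j - M * ε) + (if idx k ω = none then 0 else e) with hlam'
    have hlb : ∀ k ω, |lam' k ω| ≤ |∑ j, lam j - M * ε| + e := by
      intro k ω
      rw [hlam']
      beta_reduce
      refine (abs_add_le _ _).trans (add_le_add le_rfl ?_)
      split_ifs
      · rw [abs_zero]
        exact he.le
      · rw [abs_of_pos he]
    have h1 := volCO_rows (Q := Q) (l := l') hd' hz' (fun k ω => nrow (q k ω) (idx k ω) (p k ω)) (D := max D D')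
      (Λ := max Λ Λ') (fun k ω j => nrow_cases (p := fun f => f.totalDegree ≤ max D D')
        (fun j => (deg k ω j).trans (le_max_left _ _)) ((qdeg k ω).trans (le_max_right _ _)) j) (by
        filter_upwards [fn, qfn] with k h1 h1' ω ω' a b z v
        have h2 := h1 ω ω' a b z v.1
        have h3 := h1' ω ω' a b z v.1
        have h4 : idx k ω = idx k ω' := v.2
        rw [h2, h3, h4]) ⟨fun k => K1 k + K2 k, hK1.add hK2, by
        filter_upwards [hcf, hqcf, hK1.1, hK2.1] with k h1 h2 h3 h4 ω hω j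
        have hn := (S.F k).pos
        have e1 : (2 : ℝ) ^ (Λ * (S.F k).n) ≤ 2 ^ (max Λ Λ' * (S.F k).n) :=
          Real.rpow_le_rpow_of_exponent_le (by norm_num) (mul_le_mul_of_nonneg_right (le_max_left _ _) hn.le)
        have e2 : (2 : ℝ) ^ (Λ' * (S.F k).n) ≤ 2 ^ (max Λ Λ' * (S.F k).n) :=
          Real.rpow_le_rpow_of_exponent_le (by norm_num) (mul_le_mul_of_nonneg_right (le_max_right _ _) hn.le)
        have e3 : (0 : ℝ) < 2 ^ (max Λ Λ' * (S.F k).n) := by positivity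
        refine nrow_cases (p := fun f => ∀ a, |f.coeff a| ≤ (K1 k + K2 k) * 2 ^ (max Λ Λ' * (S.F k).n))
          (fun j a => ?_) (fun a => ?_) j
        · refine (h1 ω hω j a).trans (mul_le_mul (by linarith) e1 (by positivity) (by linarith))
        · refine (h2 ω hω a).trans (mul_le_mul (by linarith) e2 (by positivity) (by linarith))⟩
      ⟨fun k => K3 k + K4 k, hK3.add hK4, by
        refine Typ.mono (S := l'.sp) (Typ.and (S := l.sp) hbd hqbd) ?_
        filter_upwards [hK3.1, hK4.1] with k h3 h4 ω _ hh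
        refine nrow_cases (p := fun f => |MvPolynomial.eval (Q.v k ((l k).p.π ω)) f| ≤ K3 k + K4 k)
          (fun j => ?_) ?_
        · have := hh.1 j
          linarith
        · have := hh.2
          linarith⟩ (by
        intro L hL
        obtain ⟨K5, hK5, h5⟩ := tm L hL
        obtain ⟨K6, hK6, h6⟩ := qtm L hL
        refine ⟨fun k => K5 k + K6 k, hK5.add hK6, Typ.mono (S := l'.sp) (Typ.and (S := l.sp) h5 h6) ?_⟩
        filter_upwards [hK5.1, hK6.1] with k h3 h4 ω _ hh y hy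
        refine nrow_cases (p := fun f => |MvPolynomial.eval y f - MvPolynomial.eval (Q.v k ((l k).p.π ω)) f| ≤
          K5 k + K6 k) (fun j => ?_) ?_
        · have := hh.1 y hy j
          linarith
        · have := hh.2 y hy
          linarith) lam' (|∑ j, lam j - M * ε| + e) (Eventually.of_forall fun k ω _ => hlb k ω)
      (fun _ => 1) (S.Sub_const zero_le_one) (by
        refine Typ.mono (S := l'.sp) (ex ε hε) (Eventually.of_forall fun k ω _ hh => ?_)
        have hn := (S.F k).pos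
        set J := jac (p k ω) (Q.v k ((l k).p.π ω)) with hJ
        have d1 : J.det = ∏ j, MvPolynomial.eval (Q.v k ((l k).p.π ω)) (MvPolynomial.pderiv j (p k ω j)) :=
          det_tri (tri k ω) _
        have d2 : (2 : ℝ) ^ ((∑ j, lam j - M * ε) * (S.F k).n) ≤ |J.det| := by
          rw [d1, Finset.abs_prod]
          have d3 : (2 : ℝ) ^ ((∑ j, lam j - M * ε) * (S.F k).n) = ∏ j : Fin M, (2 : ℝ) ^ ((lam j - ε) * (S.F k).n) := by
            rw [← Real.rpow_sum_of_pos (by norm_num), ← Finset.sum_mul, Finset.sum_sub_distrib]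
            congr 2
            simp
          rw [d3]
          exact Finset.prod_le_prod (fun _ _ => by positivity) fun j _ => hh j
        have d0 : J.det ≠ 0 := by
          intro h0
          rw [h0, abs_zero] at d2
          exact absurd d2 (not_le.mpr (by positivity))
        show (2 : ℝ) ^ (2 * lam' k ω * (S.F k).n) ≤ 1 * (jac (nrow (q k ω) (idx k ω) (p k ω)) (Q.v k ((l k).p.π ω))).det ^ 2
        have d4 : (2 : ℝ) ^ (lam' k ω * (S.F k).n) ≤ |(jac (nrow (q k ω) (idx k ω) (p k ω)) (Q.v k ((l k).p.π ω))).det| := by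
          rcases hix : idx k ω with _ | i
          · have e1 : lam' k ω = ∑ j, lam j - M * ε := by
              rw [hlam']
              beta_reduce
              rw [hix, if_pos rfl, add_zero]
            rw [e1, nrow_none]
            exact d2
          · have e1 : lam' k ω = (∑ j, lam j - M * ε) + e := by
              rw [hlam']
              beta_reduce
              rw [hix, if_neg (by simp)]
            rw [e1, jac_nrow, det_row _ d0, abs_mul, add_mul, Real.rpow_add (by norm_num)]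
            exact mul_le_mul d2 (ixf_some hix).le (by positivity) (abs_nonneg _)
        rw [one_mul]
        have e2 : (2 : ℝ) ^ (2 * lam' k ω * (S.F k).n) = ((2 : ℝ) ^ (lam' k ω * (S.F k).n)) ^ 2 := by
          rw [← Real.rpow_natCast, ← Real.rpow_mul (by norm_num)]
          congr 1
          push_cast
          ring
        rw [e2, ← sq_abs (jac (nrow (q k ω) (idx k ω) (p k ω)) (Q.v k ((l k).p.π ω))).det]
        exact pow_le_pow_left₀ (by positivity) d4 2)
    -- the conclusion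
    have e1 : (fun k => ∑ ω, (l' k).T.μ ω * lam' k ω) =
        fun k => (∑ j, lam j - M * ε) + e * (l k).T.pb (Bad k) := by
      funext k
      show ∑ ω, (l k).T.μ ω * ((∑ j, lam j - M * ε) + (if idx k ω = none then 0 else e)) = _
      simp_rw [mul_add]
      rw [Finset.sum_add_distrib, ← Finset.sum_mul, Pool.Agent.Helper3.PR.sum_mu, one_mul]
      congr 1
      show _ = e * ∑ ω, res (l k).T.μ (Bad k) ω
      rw [Finset.mul_sum]
      refine Finset.sum_congr rfl fun ω _ => ?_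
      by_cases h : idx k ω = none
      · rw [if_pos h, mul_zero, res_neg _ _ _ (fun hb => hb h), mul_zero]
      · rw [if_neg h, res_pos (l k).T.μ (Bad k) _ h, mul_comm]
    rw [e1, ul_add ⟨|∑ j, lam j - M * ε|, Eventually.of_forall fun _ => le_rfl⟩ (hUB.const_mul e), ul_const,
      ul_const_mul _ hUB] at h1
    linarith
  have hP0 : P = 0 := by
    have h0 : 0 ≤ P := const_le_ul hUB (Eventually.of_forall fun k => FSp.pb_nonneg _ _)
    refine le_antisymm ?_ h0
    by_contra hc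
    rw [not_le] at hc
    have h1 := key (e * P / (2 * (M + 1))) (by positivity)
    have h2 : (M : ℝ) * (e * P / (2 * (M + 1))) ≤ (M + 1) * (e * P / (2 * (M + 1))) :=
      mul_le_mul_of_nonneg_right (by linarith) (by positivity)
    have e1 : ((M : ℝ) + 1) * (e * P / (2 * (M + 1))) = e * P / 2 := by
      field_simp
    have h3 : 0 < e * P := mul_pos he hc
    linarith
  have hT := ul_tendsto hUB
  rw [← hP, hP0] at hT
  have hT2 : Typ (S := l.sp) (fun k ω => ¬ Bad k ω) := by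
    refine Tendsto.congr (fun k => ?_) hT
    show (l k).T.pb (Bad k) = (l k).T.pb (fun ω => ¬ ¬ Bad k ω)
    congr 1
    funext ω
    exact propext not_not.symm
  refine Typ.mono (S := l.sp) hT2 (Eventually.of_forall fun k ω _ hh i => ?_)
  have hh2 : idx k ω = none := by
    by_contra h
    exact hh h
  exact ixf_none hh2 i

/-- the cells of level `c` of the point are known to all conditions of the window `c` -/
theorem cells_cndR (s : MSys S M E ι) {R : ∀ k, Setoid (S.F k).Ω} (hR : KnS R s.Q.v) {c : ℝ} (hc0 : 0 ≤ c)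
    (hc1 : c ≤ 1) (i : Option ι) : PLe (fun k => fc (Setoid.ker (s.Q.cellv c k))) (cndR s R c i) := by
  rcases i with _ | i
  · refine (Tendsto.congr' ?_ tendsto_const_nhds : Tendsto (fun k => h (fc (Setoid.ker (s.Q.cellv c k)))
      (fc (R k)) / (S.F k).n) UF (𝓝 0))
    filter_upwards [hR] with k h2
    have h3 : h (fc (Setoid.ker (s.Q.cellv c k)) : FL (S.F k)) (fc (R k)) = 0 := by
      refine h_zero (fc_le fun ω ω' a b z r => ?_)
      show s.Q.cellv c k ω = s.Q.cellv c k ω'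
      unfold VV.cellv
      rw [h2 ω ω' a b z r]
    rw [h3, zero_div]
  · exact (s.lf i).dg_win hc0 hc1

theorem grd_coord (d b : ℝ) (r : Fin M) (x : Fin M → ℝ) :
    grd (d • MvPolynomial.X r - MvPolynomial.C b) x = d • Pi.single r 1 := by
  funext a
  show MvPolynomial.eval x (MvPolynomial.pderiv a (d • MvPolynomial.X r - MvPolynomial.C b)) = _
  rw [map_sub, Derivation.map_smul, MvPolynomial.pderiv_C, sub_zero, MvPolynomial.smul_eval, MvPolynomial.pderiv_X,
    Pi.smul_apply, smul_eq_mul]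
  congr 1
  rw [Pi.single_apply, Pi.single_apply]
  by_cases h : r = a
  · rw [if_pos h, if_pos h.symm, map_one]
  · rw [if_neg h, if_neg (fun g => h g.symm), map_zero]

/-- INVERSE JACOBIAN OF OPTIMAL ROWS -/
theorem inv_typ {κ : Type} [Finite κ] {A : κ → Part S} (Q : S.VV M) {R : ∀ k, Setoid (S.F k).Ω} (hR : KnS R Q.v)
    {c : ℝ} (hc0 : 0 ≤ c) (hc1 : c ≤ 1) (hA : ∀ i, PLe (fun k => fc (Setoid.ker (Q.cellv c k))) (A i))
    {l : Lab S} (hl : l.DMf A) (hlz : (LC.kz fun k => fc (R k)).ev l)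
    (p : ∀ k, (l k).T.Ω → Fin M → MvPolynomial (Fin M) ℝ) {D : ℕ} {Λ : ℝ}
    (deg : ∀ k ω j, (p k ω j).totalDegree ≤ D)
    (fn : ∀ᶠ k in UF, ∀ ω ω', (l k).T.μ ω ≠ 0 → (l k).T.μ ω' ≠ 0 → (l k).T.Z ω ω' → (l k).V ω ω' → p k ω = p k ω')
    (cf : ∃ K : ℕ → ℝ, S.Sub K ∧ ∀ᶠ k in UF, ∀ ω, (l k).T.μ ω ≠ 0 → ∀ j a,
      |(p k ω j).coeff a| ≤ K k * 2 ^ (Λ * (S.F k).n))
    (bd : ∃ K : ℕ → ℝ, S.Sub K ∧ Typ (S := l.sp) (fun k (ω : (l k).T.Ω) => ∀ j,
      |MvPolynomial.eval (Q.v k ((l k).p.π ω)) (p k ω j)| ≤ K k))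
    (tm : ∀ L : ℕ → ℝ, S.Sub L → ∃ K : ℕ → ℝ, S.Sub K ∧ Typ (S := l.sp) (fun k (ω : (l k).T.Ω) =>
      ∀ y : Fin M → ℝ, (∀ i, |y i - Q.v k ((l k).p.π ω) i| ≤ L k * S.dl 1 k) → ∀ j,
        |MvPolynomial.eval y (p k ω j) - MvPolynomial.eval (Q.v k ((l k).p.π ω)) (p k ω j)| ≤ K k))
    (tri : ∀ k ω j, ∀ i ∈ (p k ω j).vars, i ≤ j) (lam : Fin M → ℝ)
    (ex : ∀ e : ℝ, 0 < e → Typ (S := l.sp) (fun k (ω : (l k).T.Ω) => ∀ j,
      2 ^ ((lam j - e) * (S.F k).n) ≤ |MvPolynomial.eval (Q.v k ((l k).p.π ω)) (MvPolynomial.pderiv j (p k ω j))|))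
    (hsum : M - volCO (LC.kz fun k => fc (R k)) A Q ≤ ∑ j, lam j) :
    ∀ e : ℝ, 0 < e → Typ (S := l.sp) (fun k (ω : (l k).T.Ω) => ∀ r i,
      |(jac (p k ω) (Q.v k ((l k).p.π ω)))⁻¹ r i| ≤ 2 ^ ((e - c) * (S.F k).n)) := by
  classical
  intro e he
  -- the label with the cells of level `c`
  set l1 : Lab S := l.addW fun k => Setoid.ker fun ω => Q.cellv c k ((l k).p.π ω) with hl1
  have hz1 : (LC.kz fun k => fc (R k)).ev l1 := by
    refine kz_addW hR hlz (fun k ω => Q.cellv c k ((l k).p.π ω)) (Eventually.of_forall fun k ω ω' _ _ _ _ hQ => ?_)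
    unfold VV.cellv
    rw [hQ]
  have hd1 : l1.DMf A := by
    refine Lab.DMf.addW hl _ fun i => ?_
    refine (hA i).of_le (Eventually.of_forall fun k => h_nonneg _ _) (Eventually.of_forall fun k => ?_)
    refine (h_anti (le_sup_right : (l k).p.map (A i k) ≤ _)).trans ?_
    exact ((l k).p.h_map (fc (Setoid.ker (Q.cellv c k))) (A i k)).le
  have hd0 : ∀ k, 0 < S.dl c k := fun k => S.dl_pos c k
  obtain ⟨KQ, hKQ, hQb⟩ := Q.bd
  refine Typ_all (S := l.sp) _ fun r => ?_
  have h1 := dom_typ Q hR hd1 hz1 (fun k ω => p k ω) deg (by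
    filter_upwards [fn] with k h1 ω ω' a b z v
    exact h1 ω ω' a b z v.1) cf bd tm tri lam ex hsum
    (fun k ω => (S.dl c k)⁻¹ • MvPolynomial.X r - MvPolynomial.C (Q.cellv c k ((l k).p.π ω) r : ℝ)) (D' := 1)
    (Λ' := c) (fun k ω => by
      refine (MvPolynomial.totalDegree_sub _ _).trans (max_le ?_ ?_)
      · refine (MvPolynomial.totalDegree_smul_le _ _).trans ?_
        rw [MvPolynomial.totalDegree_X]
      · rw [MvPolynomial.totalDegree_C]
        exact zero_le_one) (Eventually.of_forall fun k ω ω' _ _ _ v => by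
      have h3 : Q.cellv c k ((l k).p.π ω) = Q.cellv c k ((l k).p.π ω') := v.2
      rw [h3]) ⟨fun k => KQ k + 2, hKQ.add (S.Sub_const (by norm_num)), by
      filter_upwards [hQb, hKQ.1] with k h3 h4 ω hω a
      have e1 : (S.dl c k)⁻¹ = 2 ^ (c * (S.F k).n) := by
        show (2 ^ (-(c * (S.F k).n)))⁻¹ = (2 : ℝ) ^ (c * (S.F k).n)
        rw [Real.rpow_neg (by norm_num), inv_inv]
      have hD : (1 : ℝ) ≤ 2 ^ (c * (S.F k).n) := Real.one_le_rpow (by norm_num) (mul_nonneg hc0 (S.F k).pos.le)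
      rw [MvPolynomial.coeff_sub, MvPolynomial.coeff_smul, smul_eq_mul, e1]
      have e2 : |(2 : ℝ) ^ (c * (S.F k).n) * MvPolynomial.coeff a (MvPolynomial.X r : MvPolynomial (Fin M) ℝ)| ≤
          2 ^ (c * (S.F k).n) := by
        rw [MvPolynomial.coeff_X']
        split_ifs
        · rw [mul_one, abs_of_pos (by positivity)]
        · rw [mul_zero, abs_zero]
          positivity
      have e3 : |MvPolynomial.coeff a (MvPolynomial.C (Q.cellv c k ((l k).p.π ω) r : ℝ) : MvPolynomial (Fin M) ℝ)| ≤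
          (KQ k + 1) * 2 ^ (c * (S.F k).n) := by
        rw [MvPolynomial.coeff_C]
        split_ifs
        · have h5 := h3 _ ((l k).p.supp ω hω) r
          have h6 : ((Q.cellv c k ((l k).p.π ω) r : ℤ) : ℝ) = (⌊Q.v k ((l k).p.π ω) r / S.dl c k⌋ : ℝ) := rfl
          rw [h6]
          have h7 := Int.floor_le (Q.v k ((l k).p.π ω) r / S.dl c k)
          have h8 := Int.lt_floor_add_one (Q.v k ((l k).p.π ω) r / S.dl c k)
          have h9 : |Q.v k ((l k).p.π ω) r / S.dl c k| ≤ KQ k * 2 ^ (c * (S.F k).n) := by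
            rw [div_eq_mul_inv, e1, abs_mul, abs_of_pos (show (0 : ℝ) < 2 ^ (c * (S.F k).n) by positivity)]
            exact mul_le_mul_of_nonneg_right h5 (by positivity)
          have h10 := abs_le.mp h9
          rw [abs_le, add_mul, one_mul]
          constructor <;> linarith [h10.1, h10.2]
        · rw [abs_zero]
          positivity
      have h11 := abs_sub ((2 : ℝ) ^ (c * (S.F k).n) * MvPolynomial.coeff a (MvPolynomial.X r : MvPolynomial (Fin M) ℝ))
        (MvPolynomial.coeff a (MvPolynomial.C (Q.cellv c k ((l k).p.π ω) r : ℝ) : MvPolynomial (Fin M) ℝ))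
      have h12 : (KQ k + 2) * (2 : ℝ) ^ (c * (S.F k).n) = 2 ^ (c * (S.F k).n) + (KQ k + 1) * 2 ^ (c * (S.F k).n) := by
        ring
      rw [h12]
      linarith⟩ ⟨fun _ => 1, S.Sub_const zero_le_one, by
      refine Typ.mono (S := l1.sp) (Typ_true (S := l1.sp)) (Eventually.of_forall fun k (ω : (l k).T.Ω) _ _ => ?_)
      rw [map_sub, MvPolynomial.smul_eval, MvPolynomial.eval_X, MvPolynomial.eval_C]
      show |(S.dl c k)⁻¹ * Q.v k ((l k).p.π ω) r - (⌊Q.v k ((l k).p.π ω) r / S.dl c k⌋ : ℝ)| ≤ 1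
      have h7 := Int.floor_le (Q.v k ((l k).p.π ω) r / S.dl c k)
      have h8 := Int.lt_floor_add_one (Q.v k ((l k).p.π ω) r / S.dl c k)
      rw [← div_eq_inv_mul, abs_le]
      constructor <;> linarith⟩ (by
      intro L hL
      refine ⟨L, hL, Typ.mono (S := l1.sp) (Typ_true (S := l1.sp)) ?_⟩
      filter_upwards [hL.1] with k hL0 ω _ _ y hy
      rw [map_sub, map_sub, MvPolynomial.smul_eval, MvPolynomial.smul_eval, MvPolynomial.eval_X, MvPolynomial.eval_X,
        MvPolynomial.eval_C, MvPolynomial.eval_C]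
      have e1 : (S.dl c k)⁻¹ * y r - (Q.cellv c k ((l k).p.π ω) r : ℝ) - ((S.dl c k)⁻¹ * Q.v k ((l k).p.π ω) r -
          (Q.cellv c k ((l k).p.π ω) r : ℝ)) = (y r - Q.v k ((l k).p.π ω) r) / S.dl c k := by
        rw [div_eq_inv_mul]
        ring
      have h3 := hy r
      have h4 : S.dl 1 k ≤ S.dl c k := S.dl_anti hc1 k
      have h5 : |(y r - Q.v k ((l k).p.π ω) r) / S.dl c k| ≤ L k := by
        rw [abs_div, abs_of_pos (hd0 k), div_le_iff₀ (hd0 k)]
        exact h3.trans (mul_le_mul_of_nonneg_left h4 hL0)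
      rw [← e1] at h5
      exact h5) e he
  refine Typ.mono (S := l.sp) h1 (Eventually.of_forall fun k ω _ hh i => ?_)
  have h2 := hh i
  rw [grd_coord, Matrix.smul_vecMul, Pi.smul_apply, smul_eq_mul, Matrix.single_one_vecMul, abs_mul,
    abs_of_pos (inv_pos.mpr (hd0 k))] at h2
  have e1 : (2 : ℝ) ^ ((e - c) * (S.F k).n) = S.dl c k * 2 ^ (e * (S.F k).n) := by
    show _ = 2 ^ (-(c * (S.F k).n)) * (2 : ℝ) ^ (e * (S.F k).n)
    rw [← Real.rpow_add (by norm_num)]
    congr 1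
    ring
  rw [e1]
  have h3 := mul_le_mul_of_nonneg_left h2 (hd0 k).le
  rw [← mul_assoc, mul_inv_cancel₀ (hd0 k).ne', one_mul] at h3
  exact h3

end

end Pool.Agent.Helper37.OKD
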