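import Pool.Agent.Helper37.OKD.Ncf

/-! LINEAR CHANGE of the vectors in the class of non concentrated families: over a label, with a new unit, for matrices
which are functions of the label and of the condition and which have bounded inverses on a typical event; the new vectors
may be perturbed by `2 ^ (-(c n / 2))`. -/

set_option autoImplicit false

namespace Pool.Agent.Helper37.OKD

open Finset Filter Topology Matrix Pool.Agent.Helper69.RK Pool.Agent.Helper31.EC Pool.Agent.Helper31.EC.Sp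
open Pool.Agent.Helper40.EL Pool.Agent.Helper89.LX Pool.Agent.Helper3.LF Pool.Agent.Helper84.MT
open Pool.Agent.Helper49.MD Pool.Agent.Helper36.AM Pool.Agent.Helper37.DK2

noncomputable section

/-- diagonalisation of a real symmetric matrix -/
theorem exists_spec {γ : Type} [Fintype γ] [DecidableEq γ] (G : Matrix γ γ ℝ) (hG : G.transpose = G) :
    ∃ (U : Matrix γ γ ℝ) (lam : γ → ℝ), Uᵀ * U = 1 ∧ U * Uᵀ = 1 ∧ G = U * diagonal lam * Uᵀ := by
  have hH : G.IsHermitian := by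
    unfold Matrix.IsHermitian
    rw [Matrix.conjTranspose_eq_transpose_of_trivial]
    exact hG
  have hU1 : star (hH.eigenvectorUnitary : Matrix γ γ ℝ) * (hH.eigenvectorUnitary : Matrix γ γ ℝ) = 1 :=
    Unitary.coe_star_mul_self hH.eigenvectorUnitary
  have hU2 : (hH.eigenvectorUnitary : Matrix γ γ ℝ) * star (hH.eigenvectorUnitary : Matrix γ γ ℝ) = 1 :=
    Unitary.coe_mul_star_self hH.eigenvectorUnitary
  have hst : star (hH.eigenvectorUnitary : Matrix γ γ ℝ) = (hH.eigenvectorUnitary : Matrix γ γ ℝ)ᵀ := by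
    rw [Matrix.star_eq_conjTranspose, Matrix.conjTranspose_eq_transpose_of_trivial]
  rw [hst] at hU1 hU2
  refine ⟨(hH.eigenvectorUnitary : Matrix γ γ ℝ), hH.eigenvalues, hU1, hU2, ?_⟩
  have h := hH.spectral_theorem
  rw [Unitary.conjStarAlgAut_apply, hst] at h
  exact h

theorem dot_mulVec_self {γ δ : Type} [Fintype γ] [Fintype δ] (A : Matrix γ δ ℝ) (v : δ → ℝ) :
    (A *ᵥ v) ⬝ᵥ (A *ᵥ v) = v ⬝ᵥ ((Aᵀ * A) *ᵥ v) := by
  rw [← Matrix.mulVec_mulVec, Matrix.mulVec_transpose, dotProduct_comm v, ← Matrix.dotProduct_mulVec]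

theorem dot_vecMul_self {γ δ : Type} [Fintype γ] [Fintype δ] (A : Matrix γ δ ℝ) (v : γ → ℝ) :
    (v ᵥ* A) ⬝ᵥ (v ᵥ* A) = v ⬝ᵥ ((A * Aᵀ) *ᵥ v) := by
  have h1 : v ᵥ* A = Aᵀ *ᵥ v := (Matrix.mulVec_transpose A v).symm
  rw [h1, dot_mulVec_self, Matrix.transpose_transpose]

/-- a family which is bounded from below can be made orthonormal by a contraction -/
theorem exists_onb {γ β : Type} [Fintype γ] [Fintype β] (ν : Matrix γ β ℝ)
    (hν : ∀ b : γ → ℝ, b ⬝ᵥ b ≤ (b ᵥ* ν) ⬝ᵥ (b ᵥ* ν)) : ∃ X : Matrix γ γ ℝ,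
      (∀ b : γ → ℝ, (b ᵥ* (X * ν)) ⬝ᵥ (b ᵥ* (X * ν)) = b ⬝ᵥ b) ∧
      ∀ v : γ → ℝ, (X *ᵥ v) ⬝ᵥ (X *ᵥ v) ≤ v ⬝ᵥ v := by
  classical
  have hG : (ν * νᵀ).transpose = ν * νᵀ := by
    rw [Matrix.transpose_mul, Matrix.transpose_transpose]
  obtain ⟨U, lam, h1, h2, h3⟩ := exists_spec (ν * νᵀ) hG
  have hlam : ∀ i, 1 ≤ lam i := by
    intro i
    have h4 := hν (U *ᵥ Pi.single i 1)
    rw [dot_vecMul_self, h3] at h4
    have e1 : (U *ᵥ Pi.single i 1) ⬝ᵥ (U *ᵥ Pi.single i 1) = (1 : ℝ) := by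
      rw [dot_mulVec_self, h1, Matrix.one_mulVec]
      simp
    have e2 : (U *ᵥ Pi.single i 1) ⬝ᵥ ((U * diagonal lam * Uᵀ) *ᵥ (U *ᵥ Pi.single i 1)) = lam i := by
      rw [Matrix.mulVec_mulVec, Matrix.mul_assoc, h1, Matrix.mul_one, ← Matrix.mulVec_mulVec,
        Matrix.dotProduct_mulVec, Matrix.vecMul_mulVec, h1, Matrix.vecMul_one]
      simp
    rw [e1, e2] at h4
    exact h4
  have hl0 : ∀ i, 0 < lam i := fun i => one_pos.trans_le (hlam i)
  refine ⟨diagonal (fun i => (Real.sqrt (lam i))⁻¹) * Uᵀ, fun b => ?_, fun v => ?_⟩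
  · rw [dot_vecMul_self]
    have e1 : (diagonal (fun i => (Real.sqrt (lam i))⁻¹) * Uᵀ * ν) *
        (diagonal (fun i => (Real.sqrt (lam i))⁻¹) * Uᵀ * ν)ᵀ = 1 := by
      have e2 : (diagonal (fun i => (Real.sqrt (lam i))⁻¹) * Uᵀ * ν)ᵀ =
          νᵀ * (U * diagonal (fun i => (Real.sqrt (lam i))⁻¹)) := by
        rw [Matrix.transpose_mul, Matrix.transpose_mul, Matrix.transpose_transpose, Matrix.diagonal_transpose]
      rw [e2]
      calc diagonal (fun i => (Real.sqrt (lam i))⁻¹) * Uᵀ * ν * (νᵀ * (U * diagonal (fun i => (Real.sqrt (lam i))⁻¹)))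
          = diagonal (fun i => (Real.sqrt (lam i))⁻¹) * (Uᵀ * (ν * νᵀ) * U) *
            diagonal (fun i => (Real.sqrt (lam i))⁻¹) := by simp only [Matrix.mul_assoc]
        _ = diagonal (fun i => (Real.sqrt (lam i))⁻¹) * diagonal lam *
            diagonal (fun i => (Real.sqrt (lam i))⁻¹) := by
            rw [h3]
            have e3 : Uᵀ * (U * diagonal lam * Uᵀ) * U = diagonal lam := by
              calc Uᵀ * (U * diagonal lam * Uᵀ) * U = (Uᵀ * U) * diagonal lam * (Uᵀ * U) := by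
                    simp only [Matrix.mul_assoc]
                _ = diagonal lam := by rw [h1, Matrix.one_mul, Matrix.mul_one]
            rw [e3]
        _ = 1 := by
            rw [Matrix.diagonal_mul_diagonal, Matrix.diagonal_mul_diagonal, ← Matrix.diagonal_one]
            congr 1
            funext i
            have h5 := Real.mul_self_sqrt (hl0 i).le
            have h6 : Real.sqrt (lam i) ≠ 0 := (Real.sqrt_pos.mpr (hl0 i)).ne'
            field_simp
            rw [sq, h5]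
    rw [e1, Matrix.one_mulVec]
  · have e1 : (diagonal (fun i => (Real.sqrt (lam i))⁻¹) * Uᵀ) *ᵥ v =
        fun i => (Real.sqrt (lam i))⁻¹ * (Uᵀ *ᵥ v) i := by
      rw [← Matrix.mulVec_mulVec]
      funext i
      rw [Matrix.mulVec_diagonal]
    have e2 : v ⬝ᵥ v = (Uᵀ *ᵥ v) ⬝ᵥ (Uᵀ *ᵥ v) := by
      rw [dot_mulVec_self, Matrix.transpose_transpose, h2, Matrix.one_mulVec]
    rw [e1, e2]
    refine Finset.sum_le_sum fun i _ => ?_
    have h5 : (Real.sqrt (lam i))⁻¹ ≤ 1 := by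
      apply inv_le_one_of_one_le₀
      rw [Real.one_le_sqrt]
      exact hlam i
    have h6 : 0 ≤ (Real.sqrt (lam i))⁻¹ := inv_nonneg.mpr (Real.sqrt_nonneg _)
    have h7 : (Real.sqrt (lam i))⁻¹ * (Real.sqrt (lam i))⁻¹ ≤ 1 := by nlinarith
    have h8 := mul_self_nonneg ((Uᵀ *ᵥ v) i)
    nlinarith

theorem le_dot_self {γ : Type} [Fintype γ] (v : γ → ℝ) (i : γ) : |v i| ^ 2 ≤ v ⬝ᵥ v := by
  rw [sq_abs, sq]
  exact Finset.single_le_sum (f := fun i => v i * v i) (fun i _ => mul_self_nonneg _) (Finset.mem_univ i)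

theorem dot_self_le {γ : Type} [Fintype γ] (v : γ → ℝ) {ε : ℝ} (hv : ∀ i, |v i| ≤ ε) :
    v ⬝ᵥ v ≤ Fintype.card γ * ε ^ 2 := by
  have h1 : ∀ i, v i * v i ≤ ε ^ 2 := by
    intro i
    have h2 := hv i
    have h3 := abs_nonneg (v i)
    have h4 : |v i| ^ 2 ≤ ε ^ 2 := pow_le_pow_left₀ h3 h2 2
    rw [sq_abs, sq] at h4
    exact h4
  refine (Finset.sum_le_sum fun i _ => h1 i).trans ?_
  rw [Finset.sum_const, Finset.card_univ, nsmul_eq_mul]

/-- the estimate of one vector -/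
theorem lin_est {γ β : Type} [Fintype γ] [Fintype β] (X : Matrix γ γ ℝ) (ν : Matrix γ β ℝ)
    (h1 : ∀ b : γ → ℝ, (b ᵥ* (X * ν)) ⬝ᵥ (b ᵥ* (X * ν)) = b ⬝ᵥ b)
    (h2 : ∀ v : γ → ℝ, (X *ᵥ v) ⬝ᵥ (X *ᵥ v) ≤ v ⬝ᵥ v) {u v : β → ℝ} {ε K : ℝ} (hε : 0 ≤ ε) (hK : 0 ≤ K)
    (hu : ∀ c, |(ν *ᵥ u) c| ≤ ε) (huv : ∀ j, |u j - v j| ≤ K * ε) (c : γ) :
    |((X * ν) *ᵥ v) c| ≤ (Fintype.card γ + Fintype.card β * K) * ε := by
  classical
  have a1 : |((X * ν) *ᵥ u) c| ≤ Fintype.card γ * ε := by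
    rw [← Matrix.mulVec_mulVec]
    have b1 := (le_dot_self (X *ᵥ (ν *ᵥ u)) c).trans ((h2 _).trans (dot_self_le _ hu))
    have b2 : (Fintype.card γ : ℝ) * ε ^ 2 ≤ (Fintype.card γ * ε) ^ 2 := by
      have b3 : (1 : ℝ) ≤ Fintype.card γ := by
        haveI : Nonempty γ := ⟨c⟩
        exact_mod_cast Fintype.card_pos
      rw [mul_pow]
      exact mul_le_mul_of_nonneg_right (by nlinarith) (sq_nonneg _)
    exact abs_le_of_sq_le_sq' (b1.trans b2) (by positivity) |>.2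
  have a2 : |((X * ν) *ᵥ (v - u)) c| ≤ Fintype.card β * (K * ε) := by
    have b1 : ((X * ν) *ᵥ (v - u)) c = (Pi.single c 1 ᵥ* (X * ν)) ⬝ᵥ (v - u) := by
      rw [← Matrix.dotProduct_mulVec]
      simp
    have b2 : ∀ j, |(Pi.single c 1 ᵥ* (X * ν)) j| ≤ 1 := by
      intro j
      have b3 := (le_dot_self (Pi.single c 1 ᵥ* (X * ν)) j).trans (h1 (Pi.single c 1)).le
      have b4 : (Pi.single c 1 : γ → ℝ) ⬝ᵥ Pi.single c 1 = 1 := by simp
      rw [b4] at b3
      have b5 := abs_nonneg ((Pi.single c 1 ᵥ* (X * ν)) j)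
      nlinarith
    rw [b1]
    refine (Finset.abs_sum_le_sum_abs _ _).trans ?_
    refine (Finset.sum_le_sum (g := fun _ => K * ε) fun j _ => ?_).trans ?_
    · rw [abs_mul]
      have b6 := huv j
      rw [abs_sub_comm] at b6
      have b7 := b2 j
      have b8 := abs_nonneg ((v - u) j)
      have b9 : |(v - u) j| ≤ K * ε := b6
      nlinarith
    · rw [Finset.sum_const, Finset.card_univ, nsmul_eq_mul]
  have a3 : ((X * ν) *ᵥ v) c = ((X * ν) *ᵥ u) c + ((X * ν) *ᵥ (v - u)) c := by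
    have b1 : v = u + (v - u) := by abel
    conv_lhs => rw [b1, Matrix.mulVec_add]
    rfl
  rw [a3]
  refine (abs_add_le _ _).trans ?_
  have a4 : ((Fintype.card γ : ℝ) + Fintype.card β * K) * ε = Fintype.card γ * ε + Fintype.card β * (K * ε) := by ring
  rw [a4]
  exact add_le_add a1 a2

/-- LINEAR CHANGE OF THE VECTORS, typical form, over a label, new unit `c`. The matrices `B` are functions of the label and of
the condition; outside of an event of probability `r` the inverse of `B` is bounded by `K` and the new vectors are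
`B t` up to `K₂ 2 ^ (-(c n / 2))` -/
theorem NCf_lin {F : FSp} {C : Setoid F.Ω} {γ : Type} [Fintype γ] {α β : Type} [Fintype β]
    {t : F.Ω → α → β → ℝ} {h₀ δ δ' r q K K₂ : ℝ} (l : FLab F) (c : ℝ) (hc : 0 < c) (hc1 : c ≤ 1) (h0 : 0 < h₀)
    (hδ' : 0 < δ') (hr : 0 ≤ r) (hK : 0 ≤ K) (hK₂ : 0 ≤ K₂) {C' : Setoid l.T.Ω}
    (hC' : ∀ w w', l.T.μ w ≠ 0 → l.T.μ w' ≠ 0 → l.T.Z w w' → l.V w w' → C (l.p.π w) (l.p.π w') → C' w w')
    (B : l.T.Ω → Matrix β β ℝ)
    (hB : ∀ w w', l.T.μ w ≠ 0 → l.T.μ w' ≠ 0 → l.T.Z w w' → l.V w w' → C (l.p.π w) (l.p.π w') → B w = B w')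
    {t' : l.T.Ω → α → β → ℝ} {A : l.T.Ω → Prop} (hA : l.T.pb (fun w => ¬ A w) ≤ r)
    (hA1 : ∀ w, l.T.μ w ≠ 0 → A w → ∀ b : β → ℝ, b ⬝ᵥ b ≤ K ^ 2 * ((b ᵥ* B w) ⬝ᵥ (b ᵥ* B w)))
    (hA2 : ∀ w, l.T.μ w ≠ 0 → A w → ∀ a j, |t' w a j - (B w *ᵥ t (l.p.π w) a) j| ≤ K₂ * 2 ^ (-(c * F.n / 2)))
    (hq0 : 0 ≤ q) (hq : q ≤ δ * c / 2)
    (hqK : K * (Fintype.card γ + Fintype.card β * K₂) ≤ 2 ^ (q * F.n)) (hd : δ' ≤ δ * c / 2)
    (hh : l.leak (fc C) / (h₀ * (δ * c / 2) * F.n) + 2 * q / (δ * c) + δ' + r ≤ δ) (H : NCf F C γ t h₀ δ') :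
    NCf (l.ovr c hc) C' γ t' h₀ δ := by
  classical
  intro l2 ν h1 h2 e he he'
  have hn := F.pos
  have hδ : 0 < δ := by
    by_contra h3
    rw [not_lt] at h3
    have : δ * c ≤ 0 := mul_nonpos_of_nonpos_of_nonneg h3 hc.le
    linarith
  have he0 : 0 < e := hδ.trans_le he
  have hec : δ * c ≤ e * c := mul_le_mul_of_nonneg_right he hc.le
  have hec1 : e * c ≤ 1 / 2 := (mul_le_of_le_one_right he0.le hc1).trans he'
  have hdc : 0 < δ * c := by positivity
  have e1 : (l.ovr c hc).n = c * F.n := by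
    show c * l.T.n = _
    rw [l.hn]
  -- orthonormal functionals
  have hX : ∀ m : Matrix γ β ℝ, ∃ X : Matrix γ γ ℝ, (∀ b : γ → ℝ, b ⬝ᵥ b ≤ (b ᵥ* m) ⬝ᵥ (b ᵥ* m)) →
      (∀ b : γ → ℝ, (b ᵥ* (X * m)) ⬝ᵥ (b ᵥ* (X * m)) = b ⬝ᵥ b) ∧
      ∀ v : γ → ℝ, (X *ᵥ v) ⬝ᵥ (X *ᵥ v) ≤ v ⬝ᵥ v := by
    intro m
    by_cases hm : ∀ b : γ → ℝ, b ⬝ᵥ b ≤ (b ᵥ* m) ⬝ᵥ (b ᵥ* m)
    · obtain ⟨X, hX⟩ := exists_onb m hm
      exact ⟨X, fun _ => hX⟩
    · exact ⟨1, fun h => absurd h hm⟩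
  choose X hX using hX
  set good : Matrix β β ℝ → Prop := fun m => ∀ b : β → ℝ, b ⬝ᵥ b ≤ K ^ 2 * ((b ᵥ* m) ⬝ᵥ (b ᵥ* m)) with hgood
  set nu : l2.T.Ω → Matrix γ β ℝ := fun w => if good (B (l2.p.π w)) then K • (X (ν w) * ν w * B (l2.p.π w)) else ν w
    with hnu
  set q' : ℝ := e * c - q with hq'
  have hq1 : δ * c / 2 ≤ q' := by rw [hq']; linarith
  have hq2 : 0 < q' := lt_of_lt_of_le (by positivity) hq1
  have h3 := H (l.comp c hc l2) nu (fun w w' a b z d z2 => ?_) (fun w hw b => ?_) q' (hd.trans hq1) (by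
    rw [hq']; linarith)
  · -- the conclusion
    have hP : l2.T.pb (fun w => ∀ a cc, |(ν w *ᵥ t' (l2.p.π w) a) cc| ≤ 2 ^ (-(e * (l.ovr c hc).n))) ≤
        (l.comp c hc l2).T.pb (fun w => ∀ a cc, |(nu w *ᵥ t ((l.comp c hc l2).p.π w) a) cc| ≤ 2 ^ (-(q' * F.n))) + r := by
      have b1 : l2.T.pb (fun w => ∀ a cc, |(ν w *ᵥ t' (l2.p.π w) a) cc| ≤ 2 ^ (-(e * (l.ovr c hc).n))) ≤
          l2.T.pb (fun w => (∀ a cc, |(nu w *ᵥ t (l.p.π (l2.p.π w)) a) cc| ≤ 2 ^ (-(q' * F.n))) ∨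
            ¬ A (l2.p.π w)) := by
        refine l2.T.pb_mono fun w hw hw2 => ?_
        by_cases hAw : A (l2.p.π w)
        · left
          intro a cc
          have hs := l2.p.supp w hw
          have g1 : good (B (l2.p.π w)) := hA1 _ hs hAw
          have g2 : nu w = K • (X (ν w) * ν w * B (l2.p.π w)) := if_pos g1
          have g3 := hX (ν w) (h2 w hw)
          have g4 := lin_est (X (ν w)) (ν w) g3.1 g3.2 (u := t' (l2.p.π w) a)
            (v := B (l2.p.π w) *ᵥ t (l.p.π (l2.p.π w)) a) (ε := 2 ^ (-(e * (l.ovr c hc).n))) (K := K₂) (by positivity)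
            hK₂ (hw2 a) (fun j => (hA2 _ hs hAw a j).trans (by
              refine mul_le_mul_of_nonneg_left ?_ hK₂
              refine Real.rpow_le_rpow_of_exponent_le (by norm_num) ?_
              rw [e1]
              have : e * (c * F.n) ≤ 1 / 2 * (c * F.n) := mul_le_mul_of_nonneg_right he' (by positivity)
              linarith)) cc
          rw [g2, Matrix.smul_mulVec, Pi.smul_apply, smul_eq_mul, abs_mul, abs_of_nonneg hK, ← Matrix.mulVec_mulVec]
          refine (mul_le_mul_of_nonneg_left g4 hK).trans ?_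
          rw [← mul_assoc]
          refine (mul_le_mul_of_nonneg_right hqK (by positivity)).trans ?_
          rw [← Real.rpow_add (by norm_num)]
          refine Real.rpow_le_rpow_of_exponent_le (by norm_num) ?_
          rw [e1, hq']
          linarith
        · right
          exact hAw
      refine b1.trans ((pb_or _ _ _).trans (add_le_add le_rfl ?_))
      have b2 : l2.T.pb (fun w => ¬ A (l2.p.π w)) = (l.ovr c hc).pb (fun w => ¬ A w) := pb_push l2.p (fun w => ¬ A w)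
      rw [b2]
      exact hA
    refine hP.trans ?_
    set L1 := l.leak (fc C) with hL1
    set L2 := l2.leak (fc C') with hL2
    have h4 : (l.comp c hc l2).leak (fc C) ≤ L1 + L2 := by
      refine (l.comp_leak_le c hc l2 (fc C)).trans (add_le_add le_rfl ?_)
      refine l2.leak_anti ?_
      exact fc_le fun w w' a b z z2 => hC' w w' a b z.2 z.1 z2
    have hL10 : 0 ≤ L1 := l.leak_nonneg _
    have hL20 : 0 ≤ L2 := l2.leak_nonneg _
    have hX0 : 0 < h₀ * e * (c * F.n) := by positivity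
    have hrδ : r ≤ δ := by
      have a1 : 0 ≤ L1 / (h₀ * (δ * c / 2) * F.n) := div_nonneg hL10 (by positivity)
      have a2 : 0 ≤ 2 * q / (δ * c) := by positivity
      linarith
    rw [e1]
    by_cases hbig : 1 ≤ L2 / (h₀ * e * (c * F.n))
    · exact add_le_add ((FSp.pb_le_one _ _).trans hbig) hrδ
    · rw [not_le, div_lt_one hX0] at hbig
      have h5 : (l.comp c hc l2).leak (fc C) / (h₀ * q' * F.n) ≤ (L1 + L2) / (h₀ * q' * F.n) :=
        div_le_div_of_nonneg_right h4 (by positivity)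
      rw [add_div] at h5
      have h6 : L1 / (h₀ * q' * F.n) ≤ L1 / (h₀ * (δ * c / 2) * F.n) := by
        refine div_le_div_of_nonneg_left hL10 (by positivity) ?_
        exact mul_le_mul_of_nonneg_right (mul_le_mul_of_nonneg_left hq1 h0.le) hn.le
      have h7 : L2 / (h₀ * q' * F.n) ≤ L2 / (h₀ * e * (c * F.n)) + 2 * q / (δ * c) := by
        have a1 : L2 / (h₀ * q' * F.n) - L2 / (h₀ * e * (c * F.n)) = L2 / (h₀ * e * (c * F.n)) * (q / q') := by
          have b1 : e * c = q' + q := by rw [hq']; ring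
          have b2 : h₀ * e * (c * F.n) = h₀ * (q' + q) * F.n := by rw [← b1]; ring
          have b3 : 0 < q' + q := by positivity
          rw [b2]
          field_simp
          ring
        have a2 : L2 / (h₀ * e * (c * F.n)) ≤ 1 := by
          rw [div_le_one hX0]
          exact hbig.le
        have a3 : q / q' ≤ 2 * q / (δ * c) := by
          have b1 : 2 * q / (δ * c) = q / (δ * c / 2) := by
            field_simp
          rw [b1]
          exact div_le_div_of_nonneg_left hq0 (by positivity) hq1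
        have a4 : 0 ≤ q / q' := div_nonneg hq0 hq2.le
        have a5 : L2 / (h₀ * e * (c * F.n)) * (q / q') ≤ 1 * (q / q') := mul_le_mul_of_nonneg_right a2 a4
        linarith
      have h8 := h3.trans (add_le_add h5 le_rfl)
      refine (add_le_add h8 le_rfl).trans ?_
      linarith
  · -- a function of the label and of the condition
    have hV : l.V (l2.p.π w) (l2.p.π w') := d.1
    have hZ : l.T.Z (l2.p.π w) (l2.p.π w') := (l.p.hZ _ _ (l2.p.supp w a) (l2.p.supp w' b)).mpr z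
    have hs := l2.p.supp w a
    have hs' := l2.p.supp w' b
    have h4 : l2.T.Z w w' := (l2.p.hZ w w' a b).mpr ⟨hV, hZ⟩
    have h5 : ν w = ν w' := h1 w w' a b h4 d.2 (hC' _ _ hs hs' hZ hV z2)
    have h6 : B (l2.p.π w) = B (l2.p.π w') := hB _ _ hs hs' hZ hV z2
    rw [hnu]
    simp only [h5, h6]
  · -- bounded from below
    by_cases hg : good (B (l2.p.π w))
    · have g2 : nu w = K • (X (ν w) * ν w * B (l2.p.π w)) := if_pos hg
      rw [g2]
      have g3 := (hX (ν w) (h2 w hw)).1 b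
      have g4 := hg (b ᵥ* (X (ν w) * ν w))
      rw [g3, Matrix.vecMul_vecMul] at g4
      rw [Matrix.vecMul_smul, smul_dotProduct, dotProduct_smul, smul_eq_mul, smul_eq_mul, ← mul_assoc, ← sq]
      exact g4
    · have g2 : nu w = ν w := if_neg hg
      rw [g2]
      exact h2 w hw b

end

end Pool.Agent.Helper37.OKD
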