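import Pool.Agent.Helper37.DK2.Clo
import Pool.Agent.Helper24.PR.Ovl

/-! CLOSURE of non concentration (finite form): change of the condition, base change. -/

set_option autoImplicit false

namespace Pool.Agent.Helper37.OKD

open Finset Filter Topology Matrix Pool.Agent.Helper69.RK Pool.Agent.Helper31.EC Pool.Agent.Helper31.EC.Sp
open Pool.Agent.Helper40.EL Pool.Agent.Helper89.LX Pool.Agent.Helper3.LF Pool.Agent.Helper84.MT
open Pool.Agent.Helper49.MD Pool.Agent.Helper36.AM Pool.Agent.Helper37.DK2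

noncomputable section

/-- a label with one more partition of the space -/
def adp {F : FSp} (l : FLab F) (C : Setoid F.Ω) : FLab F := ⟨l.T, l.p, l.hn, l.V ⊓ Setoid.comap l.p.π C⟩

theorem adp_leak {F : FSp} (l : FLab F) (C C' : Setoid F.Ω) :
    (adp l C').leak (fc C) ≤ l.leak (fc C') + h (fc C' : FL F) (fc C) := by
  have h1 : (adp l C').leak (fc C) = I (l.p.map (fc C') ⊔ l.v) l.p.top (l.p.map (fc C)) := by
    unfold FLab.leak
    have e1 : (adp l C').v = l.p.map (fc C') ⊔ l.v := by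
      rw [sup_comm]
      rfl
    rw [e1]
    rfl
  rw [h1, I_chain]
  have h2 : I (l.p.map (fc C')) l.p.top (l.p.map (fc C)) ≤ h (fc C' : FL F) (fc C) := by
    have h3 := I_le_h_left (l.p.map (fc C')) l.p.top (l.p.map (fc C))
    rwa [l.p.h_map] at h3
  have h4 : I l.v l.p.top (l.p.map (fc C') ⊔ l.p.map (fc C)) ≤ l.leak (fc C') :=
    leak_cond le_sup_left (sup_le (l.p.map_le_top _) (l.p.map_le_top _))
  linarith

/-- CHANGE OF THE CONDITION -/
theorem NCf_adapt {F : FSp} {C C' : Setoid F.Ω} {γ : Type} [Fintype γ] {α β : Type} [Fintype β]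
    {t : F.Ω → α → β → ℝ} {h₀ δ δ' : ℝ} (h0 : 0 < h₀) (hδ' : 0 < δ') (hd : δ' ≤ δ)
    (hh : h (fc C' : FL F) (fc C) / (h₀ * δ * F.n) + δ' ≤ δ) (H : NCf F C γ t h₀ δ') : NCf F C' γ t h₀ δ := by
  intro l ν h1 h2 e he he'
  have hn := F.pos
  have hδ : 0 < δ := hδ'.trans_le hd
  have he0 : 0 < e := hδ.trans_le he
  have h3 := H (adp l C') ν (fun w w' a b c d _ => h1 w w' a b c d.1 d.2) h2 e (hd.trans he) he'
  refine h3.trans ?_
  have h4 := div_le_div_of_nonneg_right (adp_leak l C C') (show 0 ≤ h₀ * e * F.n by positivity)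
  rw [add_div] at h4
  have h5 : h (fc C' : FL F) (fc C) / (h₀ * e * F.n) ≤ h (fc C' : FL F) (fc C) / (h₀ * δ * F.n) := by
    refine div_le_div_of_nonneg_left (h_nonneg _ _) (by positivity) ?_
    exact mul_le_mul_of_nonneg_right (mul_le_mul_of_nonneg_left he h0.le) hn.le
  linarith

/-- OVER A LABEL, new unit `c` -/
theorem NCf_bas {F : FSp} {C : Setoid F.Ω} {γ : Type} [Fintype γ] {α β : Type} [Fintype β]
    {t : F.Ω → α → β → ℝ} {h₀ δ δ' : ℝ} (l : FLab F) (c : ℝ) (hc : 0 < c) (hc1 : c ≤ 1) (h0 : 0 < h₀) (hδ' : 0 < δ')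
    (hd : δ' ≤ δ * c) (hh : l.leak (fc C) / (h₀ * (δ * c) * F.n) + δ' ≤ δ) (H : NCf F C γ t h₀ δ') :
    NCf (l.ovr c hc) (Setoid.comap l.p.π C : Setoid l.T.Ω) γ (fun w => t (l.p.π w)) h₀ δ := by
  intro l2 ν h1 h2 e he he'
  have hn := F.pos
  have hδ : 0 < δ := by
    by_contra h3
    rw [not_lt] at h3
    have : δ * c ≤ 0 := mul_nonpos_of_nonpos_of_nonneg h3 hc.le
    linarith
  have he0 : 0 < e := hδ.trans_le he
  have hec : δ * c ≤ e * c := mul_le_mul_of_nonneg_right he hc.le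
  have h3 := H (l.comp c hc l2) ν (fun w w' a b z d z2 => ?_) h2 (e * c) (hd.trans hec)
    ((mul_le_of_le_one_right he0.le hc1).trans he')
  · have e1 : (l.ovr c hc).n = c * F.n := by
      show c * l.T.n = _
      rw [l.hn]
    have e2 : e * (l.ovr c hc).n = e * c * F.n := by rw [e1]; ring
    have e3 : h₀ * e * (l.ovr c hc).n = h₀ * (e * c) * F.n := by rw [e1]; ring
    rw [e2, e3]
    refine h3.trans ?_
    have h4 : (l.comp c hc l2).leak (fc C) ≤ l.leak (fc C) + l2.leak (fc (Setoid.comap l.p.π C)) :=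
      l.comp_leak_le c hc l2 (fc C)
    have h5 := div_le_div_of_nonneg_right h4 (show 0 ≤ h₀ * (e * c) * F.n by positivity)
    rw [add_div] at h5
    have h6 : l.leak (fc C) / (h₀ * (e * c) * F.n) ≤ l.leak (fc C) / (h₀ * (δ * c) * F.n) := by
      refine div_le_div_of_nonneg_left (l.leak_nonneg _) (by positivity) ?_
      exact mul_le_mul_of_nonneg_right (mul_le_mul_of_nonneg_left hec h0.le) hn.le
    refine (add_le_add h5 le_rfl).trans ?_
    refine le_trans ?_ (add_le_add le_rfl (le_trans (add_le_add h6 le_rfl) hh))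
    rw [add_comm (l.leak (fc C) / _) (l2.leak _ / _), add_assoc]
    rfl
  · have h4 : l2.T.Z w w' := (l2.p.hZ w w' a b).mpr ⟨d.1, (l.p.hZ _ _ (l2.p.supp w a) (l2.p.supp w' b)).mpr z⟩
    exact h1 w w' a b h4 d.2 z2

end

end Pool.Agent.Helper37.OKD
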