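import Pool.Agent.Helper29.MX.Bas
import Pool.Agent.Helper37.OKD.Ivj

/-! OPTIMAL FLAG ROWS of a deep zoom (both alternatives of `OptLam`): domination of rows and the inverse of the Jacobian. -/

set_option autoImplicit false

namespace Pool.Agent.Helper37.OKD

open Finset Filter Topology Matrix Pool.Agent.Helper69.RK Pool.Agent.Helper31.EC Pool.Agent.Helper31.EC.Sp
open Pool.Agent.Helper40.EL Pool.Agent.Helper89.LX Pool.Agent.Helper3.LF Pool.Agent.Helper84.MT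
open Pool.Agent.Helper7.GZ Pool.Agent.Helper7.RD Pool.Agent.Helper29.MX
open Pool.Agent.Helper87.NSL (cndR KnS)
open Pool.Agent.Helper52.SL (untF tnF untL tnL nul_trn cellv_chg untF_leak tnF_leak)
open Pool.Agent.Helper18.PRM (vcrd scrd)

noncomputable section

variable {S : Sp} {M : ℕ} {E : ℕ → ℕ} {ι : Type}

/-! ### the sum of the exponents -/

theorem volP_zero (s : MSys S M E ι) (R : Rsl S) (c : ℝ) (h : 0 ≤ M) : volP s R c h = 0 := by
  refine le_antisymm ?_ volCO_nonneg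
  have h1 := volCO_le_M (C := KZ R) (A := cndR s R c) (Q := pfx s.Q h)
  rw [Nat.cast_zero] at h1
  exact h1

theorem volP_full (s : MSys S M E ι) (R : Rsl S) (c : ℝ) (h : M ≤ M) :
    volP s R c h = volCO (KZ R) (cndR s R c) s.Q := by
  have e1 : pfx s.Q h = s.Q := rfl
  unfold volP
  rw [e1]

theorem sum_lam (s : MSys S M E ι) (R : Rsl S) (c : ℝ) {lam : Fin M → ℝ}
    (h : ∀ j : Fin M, lam j = 1 - (volP s R c (Nat.succ_le_of_lt j.2) - volP s R c j.2.le)) :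
    ∑ j, lam j = M - volCO (KZ R) (cndR s R c) s.Q := by
  classical
  set f : ℕ → ℝ := fun j => if h : j ≤ M then volP s R c h else 0 with hf
  have h1 : ∀ j : Fin M, lam j = 1 - (f (j + 1) - f j) := by
    intro j
    rw [h j, hf]
    simp only
    rw [dif_pos (Nat.succ_le_of_lt j.2), dif_pos j.2.le]
  simp_rw [h1]
  rw [Finset.sum_sub_distrib, Finset.sum_const, Finset.card_univ, Fintype.card_fin, nsmul_eq_mul, mul_one,
    Fin.sum_univ_eq_sum_range (fun j => f (j + 1) - f j) M, Finset.sum_range_sub]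
  have e1 : f M = volCO (KZ R) (cndR s R c) s.Q := by
    rw [hf]
    simp only
    rw [dif_pos le_rfl, volP_full]
  have e2 : f 0 = 0 := by
    rw [hf]
    simp only
    rw [dif_pos (Nat.zero_le M), volP_zero]
  rw [e1, e2, sub_zero]

/-! ### rows which are tame at a level -/

/-- rows of the label `l` which are tame at the level `b` -/
structure QR (Q : S.VV M) (l : Lab S) (b : ℝ) (q : ∀ k, (l k).T.Ω → MvPolynomial (Fin M) ℝ) : Prop where
  deg : ∃ D : ℕ, ∀ k ω, (q k ω).totalDegree ≤ D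
  fn : ∀ᶠ k in UF, ∀ ω ω', (l k).T.μ ω ≠ 0 → (l k).T.μ ω' ≠ 0 → (l k).T.Z ω ω' → (l k).V ω ω' → q k ω = q k ω'
  cf : ∃ (K : ℕ → ℝ) (Λ : ℝ), S.Sub K ∧ ∀ᶠ k in UF, ∀ ω, (l k).T.μ ω ≠ 0 → ∀ a,
    |(q k ω).coeff a| ≤ K k * 2 ^ (Λ * (S.F k).n)
  tm : ∀ L : ℕ → ℝ, S.Sub L → ∃ K : ℕ → ℝ, S.Sub K ∧ Typ (S := l.sp) (fun k (ω : (l k).T.Ω) =>
    ∀ y : Fin M → ℝ, (∀ i, |y i - Q.v k ((l k).p.π ω) i| ≤ L k * S.dl b k) → |MvPolynomial.eval y (q k ω)| ≤ K k)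

theorem QR.bd {Q : S.VV M} {l : Lab S} {b : ℝ} {q : ∀ k, (l k).T.Ω → MvPolynomial (Fin M) ℝ} (h : QR Q l b q) :
    ∃ K : ℕ → ℝ, S.Sub K ∧ Typ (S := l.sp) (fun k (ω : (l k).T.Ω) =>
      |MvPolynomial.eval (Q.v k ((l k).p.π ω)) (q k ω)| ≤ K k) := by
  obtain ⟨K, hK, h1⟩ := h.tm (fun _ => 0) (S.Sub_const le_rfl)
  refine ⟨K, hK, Typ.mono (S := l.sp) h1 (Eventually.of_forall fun k ω _ hh => hh _ fun i => ?_)⟩
  rw [sub_self, abs_zero, zero_mul]

theorem QR.lp {Q : S.VV M} {l : Lab S} {b : ℝ} {q : ∀ k, (l k).T.Ω → MvPolynomial (Fin M) ℝ} (h : QR Q l b q)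
    (L : ℕ → ℝ) (hL : S.Sub L) : ∃ K : ℕ → ℝ, S.Sub K ∧ Typ (S := l.sp) (fun k (ω : (l k).T.Ω) =>
    ∀ y : Fin M → ℝ, (∀ i, |y i - Q.v k ((l k).p.π ω) i| ≤ L k * S.dl b k) →
      |MvPolynomial.eval y (q k ω) - MvPolynomial.eval (Q.v k ((l k).p.π ω)) (q k ω)| ≤ K k) := by
  obtain ⟨K, hK, h1⟩ := h.tm L hL
  obtain ⟨K', hK', h2⟩ := h.bd
  refine ⟨fun k => K k + K' k, hK.add hK', Typ.mono (S := l.sp) (Typ.and (S := l.sp) h1 h2)
    (Eventually.of_forall fun k ω _ hh y hy => ?_)⟩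
  have h3 := abs_sub (MvPolynomial.eval y (q k ω)) (MvPolynomial.eval (Q.v k ((l k).p.π ω)) (q k ω))
  linarith [hh.1 y hy, hh.2]

/-- the rows of the zoom are tame at the level one -/
theorem tam_one {s : MSys S M E ι} (z : RW s M) : Tam z 1 := by
  intro L hL
  obtain ⟨K, hK, h1⟩ := z.R.lp L hL
  obtain ⟨K', hK', h2⟩ := z.R.bd
  refine ⟨fun k => K k + K' k, hK.add hK', Typ.mono (S := z.Z.l.sp) (Typ.and (S := z.Z.l.sp) h1 h2) ?_⟩
  filter_upwards [hK.1] with k hk0 ω _ hh y hy j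
  have h3 : |MvPolynomial.eval y (z.R.p k ω j) - MvPolynomial.eval (s.Q.v k ((z.Z.l k).p.π ω)) (z.R.p k ω j)| ≤
    K k * S.dl z.Z.u k := hh.1 y hy j
  have h4 : |MvPolynomial.eval (s.Q.v k ((z.Z.l k).p.π ω)) (z.R.p k ω j)| ≤ K' k := hh.2 j
  have h5 : S.dl z.Z.u k ≤ 1 := by
    rw [← S.dl_zero k]
    exact S.dl_anti z.Z.hu.le k
  have h6 : K k * S.dl z.Z.u k ≤ K k := mul_le_of_le_one_right hk0 h5
  have e1 : MvPolynomial.eval y (z.R.p k ω j) = (MvPolynomial.eval y (z.R.p k ω j) -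
    MvPolynomial.eval (s.Q.v k ((z.Z.l k).p.π ω)) (z.R.p k ω j)) +
    MvPolynomial.eval (s.Q.v k ((z.Z.l k).p.π ω)) (z.R.p k ω j) := by ring
  rw [e1]
  exact (abs_add_le _ _).trans (add_le_add (h3.trans h6) h4)

/-! ### the two alternatives -/

/-- subexponential sequences of the truncation -/
theorem sub_chg {b : ℝ} (h0 : 0 < b) {K : ℕ → ℝ} (hK : (S.chg S.tr b h0).Sub K) : S.Sub K := by
  refine ⟨hK.1, ?_⟩
  have h1 := hK.2.const_mul b
  rw [mul_zero] at h1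
  refine h1.congr fun k => ?_
  show b * (Real.logb 2 (K k + 2) / (b * (S.F k).n)) = Real.logb 2 (K k + 2) / (S.F k).n
  have := (S.F k).pos
  field_simp

/-- the labels of the truncation -/
theorem tnL_DMf (s : MSys S M E ι) (R : Rsl S) {b c : ℝ} (h0 : 0 < b) (h1 : b ≤ 1) {l : Lab S}
    (hl : l.DMf (cndR s R c)) : (tnL b h0 l).DMf (cndR (s.trn b h0 h1) R (c / b)) := by
  intro i
  rcases i with _ | i
  · exact nul_trn.mpr (hl none)
  · refine nul_trn.mpr ?_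
    refine (hl (some i)).congr fun k => ?_
    have e1 : ((s.lf i).Y.chg S.tr b h0).cellv (c / b) k = (s.lf i).Y.cellv c k := by
      rw [cellv_chg, mul_div_cancel₀ _ h0.ne']
    have e2 : (l k).leak ((s.lf i).win c k) =
        (tnF b h0 (l k)).leak (fc (F := (S.F k).chg ⊤ b h0) ((s.lf i).La k ⊓ Setoid.ker ((s.lf i).Y.cellv c k))) := rfl
    have e3 : (tnL b h0 l k).leak (((s.trn b h0 h1).lf i).win (c / b) k) =
        (tnF b h0 (l k)).leak (fc (F := (S.F k).chg ⊤ b h0)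
          ((s.lf i).La k ⊓ Setoid.ker (((s.lf i).Y.chg S.tr b h0).cellv (c / b) k))) := rfl
    show (l k).leak ((s.lf i).win c k) / (S.F k).n = (tnL b h0 l k).leak (((s.trn b h0 h1).lf i).win (c / b) k) / (S.F k).n
    rw [e2, e3, e1]

theorem tnL_kz (R : Rsl S) {b : ℝ} (h0 : 0 < b) {l : Lab S} (hl : (KZ R).ev l) :
    (LC.kz (S := S.chg S.tr b h0) fun k => fc (R k)).ev (tnL b h0 l) := hl

/-- DOMINATION BY OPTIMAL FLAG ROWS, and the inverse of the Jacobian -/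
theorem exists_lev [Finite ι] {s : MSys S M E ι} {R : Rsl S} (hR : Pt s R) {z : RW s M} {lam : Fin M → ℝ}
    (hK : KLb s R z.Z.c z.Z.l) (hF : Flg z lam) (hO : OptLam z R lam) :
    ∃ b : ℝ, 0 < b ∧ b ≤ 1 ∧ z.Z.c ≤ b ∧ (b = 1 ∨ b + z.Z.u ≤ 1) ∧ Tam z b ∧
      (∀ e : ℝ, 0 < e → Typ (S := z.Z.l.sp) (fun k (ω : (z.Z.l k).T.Ω) => ∀ r i,
        |(jac (z.R.p k ω) (s.Q.v k ((z.Z.l k).p.π ω)))⁻¹ r i| ≤ 2 ^ ((e - z.Z.c) * (S.F k).n))) ∧
      ∀ q : ∀ k, (z.Z.l k).T.Ω → MvPolynomial (Fin M) ℝ, QR s.Q z.Z.l b q →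
        ∀ e : ℝ, 0 < e → Typ (S := z.Z.l.sp) (fun k (ω : (z.Z.l k).T.Ω) => ∀ i,
          |(grd (q k ω) (s.Q.v k ((z.Z.l k).p.π ω)) ᵥ* (jac (z.R.p k ω) (s.Q.v k ((z.Z.l k).p.π ω)))⁻¹) i| ≤
            2 ^ (e * (S.F k).n)) := by
  have hc1 : z.Z.c ≤ 1 := by linarith [z.Z.h1, z.Z.hu]
  have hex : ∀ e : ℝ, 0 < e → Typ (S := z.Z.l.sp) (fun k (ω : (z.Z.l k).T.Ω) => ∀ j,
      2 ^ ((lam j - e) * (S.F k).n) ≤
        |MvPolynomial.eval (s.Q.v k ((z.Z.l k).p.π ω)) (MvPolynomial.pderiv j (z.R.p k ω j))|) := fun e he =>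
    Typ.mono (S := z.Z.l.sp) (hF.ex e he) (Eventually.of_forall fun k ω _ hh j => (hh j).1)
  rcases hO with hlam | ⟨b, h0, h1, hcb, hbu, hT, hlam⟩
  · -- the first alternative
    have ht := tam_one z
    have hbd : ∃ K : ℕ → ℝ, S.Sub K ∧ Typ (S := z.Z.l.sp) (fun k (ω : (z.Z.l k).T.Ω) => ∀ j,
      |MvPolynomial.eval (s.Q.v k ((z.Z.l k).p.π ω)) (z.R.p k ω j)| ≤ K k) := z.R.bd
    have htm : ∀ L : ℕ → ℝ, S.Sub L → ∃ K : ℕ → ℝ, S.Sub K ∧ Typ (S := z.Z.l.sp) (fun k (ω : (z.Z.l k).T.Ω) =>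
      ∀ y : Fin M → ℝ, (∀ i, |y i - s.Q.v k ((z.Z.l k).p.π ω) i| ≤ L k * S.dl 1 k) → ∀ j,
        |MvPolynomial.eval y (z.R.p k ω j) - MvPolynomial.eval (s.Q.v k ((z.Z.l k).p.π ω)) (z.R.p k ω j)| ≤ K k) := by
      intro L hL
      obtain ⟨K, hK, h2⟩ := z.R.lp L hL
      refine ⟨K, hK, Typ.mono (S := z.Z.l.sp) h2 ?_⟩
      filter_upwards [hK.1] with k hk0 ω _ hh y hy j
      refine (hh y hy j).trans (mul_le_of_le_one_right hk0 ?_)
      rw [← S.dl_zero k]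
      exact S.dl_anti z.Z.hu.le k
    have hs := (sum_lam s R z.Z.c hlam).ge
    refine ⟨1, one_pos, le_rfl, hc1, Or.inl rfl, ht, ?_, ?_⟩
    · exact inv_typ s.Q hR z.Z.h0 hc1 (fun i => cells_cndR s hR z.Z.h0 hc1 i) hK.1 hK.2 z.R.p z.R.deg z.R.fn z.R.cf
        hbd htm hF.tri lam hex hs
    · intro q hq
      obtain ⟨Dq, hDq⟩ := hq.deg
      obtain ⟨Kq, Λq, hKq, hcq⟩ := hq.cf
      exact dom_typ s.Q hR hK.1 hK.2 z.R.p z.R.deg z.R.fn z.R.cf hbd htm hF.tri lam hex hs q hDq hq.fn ⟨Kq, hKq, hcq⟩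
        hq.bd hq.lp
  · -- the second alternative
    have hR' : KnS (S := S.chg S.tr b h0) R (s.trn b h0 h1).Q.v := by
      filter_upwards [hR] with k hk ω ω' a a' c d
      exact hk ω ω' a a' c.2 d
    have hd' := tnL_DMf s R h0 h1 hK.1
    have hz' := tnL_kz R h0 hK.2
    have hfn' : ∀ᶠ k in UF, ∀ ω ω', (tnL b h0 z.Z.l k).T.μ ω ≠ 0 → (tnL b h0 z.Z.l k).T.μ ω' ≠ 0 →
        (tnL b h0 z.Z.l k).T.Z ω ω' → (tnL b h0 z.Z.l k).V ω ω' → z.R.p k ω = z.R.p k ω' := z.R.fn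
    have hcf' : ∃ K : ℕ → ℝ, (S.chg S.tr b h0).Sub K ∧ ∀ᶠ k in UF, ∀ ω, (tnL b h0 z.Z.l k).T.μ ω ≠ 0 → ∀ j a,
        |(z.R.p k ω j).coeff a| ≤ K k * 2 ^ (z.Λ / b * ((S.chg S.tr b h0).F k).n) := by
      obtain ⟨K, hK, hh⟩ := z.R.cf
      refine ⟨K, chg_sub S.tr b h0 hK, ?_⟩
      filter_upwards [hh] with k hk ω hω j a
      have e1 : z.Λ / b * ((S.chg S.tr b h0).F k).n = z.Λ * (S.F k).n := by
        show z.Λ / b * (b * (S.F k).n) = _
        rw [← mul_assoc, div_mul_cancel₀ _ h0.ne']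
      rw [e1]
      exact hk ω hω j a
    have hbd' : ∃ K : ℕ → ℝ, (S.chg S.tr b h0).Sub K ∧ Typ (S := (tnL b h0 z.Z.l).sp)
        (fun k (ω : (z.Z.l k).T.Ω) => ∀ j,
          |MvPolynomial.eval ((s.trn b h0 h1).Q.v k ((z.Z.l k).p.π ω)) (z.R.p k ω j)| ≤ K k) := by
      obtain ⟨K, hK, hh⟩ := z.R.bd
      exact ⟨K, chg_sub S.tr b h0 hK, hh⟩
    have htm' : ∀ L : ℕ → ℝ, (S.chg S.tr b h0).Sub L → ∃ K : ℕ → ℝ, (S.chg S.tr b h0).Sub K ∧
        Typ (S := (tnL b h0 z.Z.l).sp) (fun k (ω : (z.Z.l k).T.Ω) =>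
      ∀ y : Fin M → ℝ, (∀ i, |y i - (s.trn b h0 h1).Q.v k ((z.Z.l k).p.π ω) i| ≤ L k * (S.chg S.tr b h0).dl 1 k) →
        ∀ j, |MvPolynomial.eval y (z.R.p k ω j) -
          MvPolynomial.eval ((s.trn b h0 h1).Q.v k ((z.Z.l k).p.π ω)) (z.R.p k ω j)| ≤ K k) := by
      intro L hL
      obtain ⟨K, hK, hh⟩ := hT L (sub_chg h0 hL)
      obtain ⟨K', hK', hh'⟩ := z.R.bd
      refine ⟨fun k => K k + K' k, chg_sub S.tr b h0 (hK.add hK'), ?_⟩
      refine Typ.mono (S := z.Z.l.sp) (Typ.and (S := z.Z.l.sp) hh hh') (Eventually.of_forall fun k ω _ h2 y hy j => ?_)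
      have h3 := h2.1 y (fun i => by
        have h4 := hy i
        rw [chg_dl, mul_one] at h4
        exact h4) j
      have h5 := h2.2 j
      exact (abs_sub _ _).trans (add_le_add h3 h5)
    have hex' : ∀ e : ℝ, 0 < e → Typ (S := (tnL b h0 z.Z.l).sp) (fun k (ω : (z.Z.l k).T.Ω) => ∀ j,
        2 ^ ((lam j / b - e) * ((S.chg S.tr b h0).F k).n) ≤
          |MvPolynomial.eval ((s.trn b h0 h1).Q.v k ((z.Z.l k).p.π ω)) (MvPolynomial.pderiv j (z.R.p k ω j))|) := by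
      intro e he
      refine Typ.mono (S := z.Z.l.sp) (hex (e * b) (mul_pos he h0)) (Eventually.of_forall fun k ω _ hh j => ?_)
      have e1 : (lam j / b - e) * ((S.chg S.tr b h0).F k).n = (lam j - e * b) * (S.F k).n := by
        show (lam j / b - e) * (b * (S.F k).n) = _
        rw [← mul_assoc, sub_mul, div_mul_cancel₀ _ h0.ne']
      rw [e1]
      exact hh j
    have hs : M - volCO (LC.kz (S := S.chg S.tr b h0) fun k => fc (R k)) (cndR (s.trn b h0 h1) R (z.Z.c / b))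
        (s.trn b h0 h1).Q ≤ ∑ j, lam j / b := by
      refine (sum_lam (s.trn b h0 h1) R (z.Z.c / b) (lam := fun j => lam j / b) fun j => ?_).ge
      beta_reduce
      rw [hlam j, mul_div_cancel_left₀ _ h0.ne']
    have hc0' : 0 ≤ z.Z.c / b := div_nonneg z.Z.h0 h0.le
    have hc1' : z.Z.c / b ≤ 1 := by
      rw [div_le_one h0]
      exact hcb
    refine ⟨b, h0, h1, hcb, Or.inr hbu, hT, ?_, ?_⟩
    · intro e he
      have h2 := inv_typ (S := S.chg S.tr b h0) (s.trn b h0 h1).Q hR' hc0' hc1'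
        (fun i => cells_cndR (s.trn b h0 h1) hR' hc0' hc1' i) hd' hz' z.R.p z.R.deg hfn' hcf' hbd' htm' hF.tri
        (fun j => lam j / b) hex' hs (e / b) (div_pos he h0)
      refine Typ.mono (S := z.Z.l.sp) h2 (Eventually.of_forall fun k ω _ hh r i => ?_)
      have e1 : (e / b - z.Z.c / b) * ((S.chg S.tr b h0).F k).n = (e - z.Z.c) * (S.F k).n := by
        show (e / b - z.Z.c / b) * (b * (S.F k).n) = _
        rw [← mul_assoc, ← sub_div, div_mul_cancel₀ _ h0.ne']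
      have h3 := hh r i
      rw [e1] at h3
      exact h3
    · intro q hq e he
      obtain ⟨Dq, hDq⟩ := hq.deg
      obtain ⟨Kq, Λq, hKq, hcq⟩ := hq.cf
      have h2 := dom_typ (S := S.chg S.tr b h0) (s.trn b h0 h1).Q hR' hd' hz' z.R.p z.R.deg hfn' hcf' hbd' htm'
        hF.tri (fun j => lam j / b) hex' hs q hDq hq.fn (Λ' := Λq / b) ⟨Kq, chg_sub S.tr b h0 hKq, by
          filter_upwards [hcq] with k hk ω hω a
          have e1 : Λq / b * ((S.chg S.tr b h0).F k).n = Λq * (S.F k).n := by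
            show Λq / b * (b * (S.F k).n) = _
            rw [← mul_assoc, div_mul_cancel₀ _ h0.ne']
          rw [e1]
          exact hk ω hω a⟩ (by
          obtain ⟨K, hK, hh⟩ := hq.bd
          exact ⟨K, chg_sub S.tr b h0 hK, hh⟩) (by
          intro L hL
          obtain ⟨K, hK, hh⟩ := hq.lp L (sub_chg h0 hL)
          refine ⟨K, chg_sub S.tr b h0 hK, Typ.mono (S := z.Z.l.sp) hh (Eventually.of_forall fun k ω _ h2 y hy => ?_)⟩
          exact h2 y (fun i => by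
            have h4 := hy i
            rw [chg_dl, mul_one] at h4
            exact h4)) (e / b) (div_pos he h0)
      refine Typ.mono (S := z.Z.l.sp) h2 (Eventually.of_forall fun k ω _ hh i => ?_)
      have e1 : e / b * ((S.chg S.tr b h0).F k).n = e * (S.F k).n := by
        show e / b * (b * (S.F k).n) = _
        rw [← mul_assoc, div_mul_cancel₀ _ h0.ne']
      have h3 := hh i
      rw [e1] at h3
      exact h3

end

end Pool.Agent.Helper37.OKD
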