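import Pool.Agent.Helper37.OKD.Lin
import Pool.Agent.Helper37.DK2.Lin
import Pool.Agent.Helper29.MX.St
import Pool.Agent.Helper7.GZ.Row

/-! NON CONCENTRATION does not see changes of the tangents at scales below `2 ^ (- n / 2)`; in particular terms of the
charts of the size of the finest resolution may be dropped. -/

set_option autoImplicit false

namespace Pool.Agent.Helper37.OKD

open Finset Filter Topology Matrix Pool.Agent.Helper69.RK Pool.Agent.Helper31.EC Pool.Agent.Helper31.EC.Sp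
open Pool.Agent.Helper40.EL Pool.Agent.Helper89.LX Pool.Agent.Helper3.LF Pool.Agent.Helper84.MT
open Pool.Agent.Helper49.MD Pool.Agent.Helper36.AM Pool.Agent.Helper37.DK2 Pool.Agent.Helper29.MX

noncomputable section

variable {S : Sp} {M : ℕ} {E E' : ℕ → ℕ} {ι κ : Type}

/-- NEAR VECTORS, finite form -/
theorem NCf_near {F : FSp} {C : Setoid F.Ω} {γ : Type} [Fintype γ] {α α' β : Type} [Fintype β]
    {t : F.Ω → α → β → ℝ} {t' : F.Ω → α' → β → ℝ} {h₀ δ δ' δ'' κ K : ℝ} (h0 : 0 < h₀) (hκ : 0 < κ) (h1 : κ ≤ δ / 2)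
    (h2 : δ' ≤ δ / 2) (h3 : 2 * κ / δ + δ' + δ'' ≤ δ) (hK : 0 ≤ K) (B : F.Ω → Prop) (hB : F.pb B ≤ δ'')
    (hA : ∀ w, F.μ w ≠ 0 → ¬ B w → ∀ a, ∃ a', ∀ j, |t' w a' j - t w a j| ≤ K * 2 ^ (-(1 / 2 * F.n)))
    (hq : (Fintype.card γ : ℝ) + Fintype.card β * K ≤ 2 ^ (κ * F.n)) (H : NCf F C γ t h₀ δ') :
    NCf F C γ t' h₀ δ := by
  classical
  have hX : ∀ m : Matrix γ β ℝ, ∃ X : Matrix γ γ ℝ, Adm m →
      (∀ b : γ → ℝ, (b ᵥ* (X * m)) ⬝ᵥ (b ᵥ* (X * m)) = b ⬝ᵥ b) ∧
      ∀ v : γ → ℝ, (X *ᵥ v) ⬝ᵥ (X *ᵥ v) ≤ v ⬝ᵥ v := by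
    intro m
    by_cases hm : Adm m
    · obtain ⟨X, hX⟩ := exists_onb m hm
      exact ⟨X, fun _ => hX⟩
    · exact ⟨1, fun h => absurd h hm⟩
  choose X hX using hX
  refine H.red h0 hκ h1 h2 h3 B hB (fun ν => X ν * ν) (fun ν hν b => ((hX ν hν).1 b).ge) ?_
  intro w hw hb ν hν e he he' hs a c
  have hn := F.pos
  obtain ⟨a', ha'⟩ := hA w hw hb a
  have g := lin_est (X ν) ν (hX ν hν).1 (hX ν hν).2 (u := t' w a') (v := t w a) (ε := 2 ^ (-(e * F.n))) (K := K)
    (by positivity) hK (hs a') (fun j => (ha' j).trans (by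
      refine mul_le_mul_of_nonneg_left ?_ hK
      refine Real.rpow_le_rpow_of_exponent_le (by norm_num) ?_
      have : e * F.n ≤ 1 / 2 * F.n := mul_le_mul_of_nonneg_right he' hn.le
      linarith)) c
  refine g.trans ((mul_le_mul_of_nonneg_right hq (by positivity)).trans ?_)
  rw [← Real.rpow_add (by norm_num)]
  refine Real.rpow_le_rpow_of_exponent_le (by norm_num) ?_
  linarith

/-- NEAR TANGENTS -/
theorem nc_near {s : MSys S M E ι} {s' : MSys S M E' κ} {γ : Type} [Fintype γ] {h₀ : ℝ} (h0 : 0 < h₀)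
    {K : ℕ → ℝ} (hK : S.Sub K) (C : ∀ k, Setoid (S.F k).Ω)
    (hA : Typ (S := S) fun k ω => ∀ a, ∃ a', ∀ j,
      |mtan (ob s' k) ω a' j - mtan (ob s k) ω a j| ≤ K k * S.dl (1 / 2) k)
    (H : ∀ δ : ℝ, 0 < δ → ∀ᶠ k in UF, NCf (S.F k) (C k) γ (mtan (ob s k)) h₀ δ) (δ : ℝ) (hδ : 0 < δ) :
    ∀ᶠ k in UF, NCf (S.F k) (C k) γ (mtan (ob s' k)) h₀ δ := by
  classical
  by_cases hd : δ ≤ 1 / 2
  · have hK2 : S.Sub (fun k => (Fintype.card γ : ℝ) + Fintype.card (Fin M) * K k) :=
      (S.Sub_const (Nat.cast_nonneg _)).add ((S.Sub_const (Nat.cast_nonneg _)).mul hK)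
    have hq0 : 0 < δ ^ 2 / 8 := by positivity
    have h4 := hA.eventually (ge_mem_nhds (show (0 : ℝ) < δ / 4 by linarith))
    filter_upwards [H (δ / 4) (by linarith), hK2.eventually_le hq0, h4, hK.1] with k a1 a2 a3 a4
    refine NCf_near h0 hq0 (by nlinarith) (δ' := δ / 4) (δ'' := δ / 4) (by linarith) ?_ a4 _ a3
      (fun w _ hb => not_not.mp hb) (by linarith) a1
    have e1 : 2 * (δ ^ 2 / 8) / δ = δ / 4 := by
      field_simp
      norm_num
    rw [e1]
    linarith
  · refine Eventually.of_forall fun k l ν _ _ e he he' => ?_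
    exact absurd (he.trans he') hd

/-! ### charts with dropped terms -/

theorem coeff_pderiv_le {n D : ℕ} {P : MvPolynomial (Fin n) ℝ} (hP : P.totalDegree ≤ D) {K : ℝ} (hK : 0 ≤ K)
    (hc : ∀ a, |P.coeff a| ≤ K) (i : Fin n) (a : Fin n →₀ ℕ) : |(MvPolynomial.pderiv i P).coeff a| ≤ K * (D + 1) := by
  rw [MvPolynomial.coeff_pderiv, abs_mul]
  by_cases h : P.coeff (a + Finsupp.single i 1) = 0
  · rw [h, abs_zero, zero_mul]
    positivity
  · have h1 : a + Finsupp.single i 1 ∈ P.support := MvPolynomial.mem_support_iff.mpr h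
    have h2 := MvPolynomial.le_totalDegree h1
    have h3 : a i + 1 ≤ (a + Finsupp.single i 1).sum fun _ e => e := by
      rw [Finsupp.sum_fintype _ _ (fun _ => rfl)]
      have h4 : (a + Finsupp.single i 1 : Fin n →₀ ℕ) i = a i + 1 := by simp
      rw [← h4]
      exact Finset.single_le_sum (f := fun j => (a + Finsupp.single i 1 : Fin n →₀ ℕ) j) (fun _ _ => Nat.zero_le _)
        (Finset.mem_univ i)
    have h4 : a i + 1 ≤ D := h3.trans (h2.trans hP)
    have h5 : |(((a i : ℕ) : ℝ) + 1)| ≤ (D : ℝ) + 1 := by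
      rw [abs_of_nonneg (by positivity)]
      have : ((a i + 1 : ℕ) : ℝ) ≤ D := by exact_mod_cast h4
      push_cast at this
      linarith
    exact mul_le_mul (hc _) h5 (abs_nonneg _) hK

/-- the tangents of the system with dropped terms -/
theorem tay_tan [Finite ι] {s : MSys S M E ι} {s' : MSys S M E' ι} (ht : Tay s s') :
    ∃ K : ℕ → ℝ, S.Sub K ∧ Typ (S := S) fun k ω => ∀ a, ∃ a', ∀ j,
      |mtan (ob s' k) ω a' j - mtan (ob s k) ω a j| ≤ K k * S.dl 1 k := by
  classical
  haveI := Fintype.ofFinite ι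
  obtain ⟨hQ, ht⟩ := ht
  have h1 : ∀ i, ∃ K : ℕ → ℝ, S.Sub K ∧ Typ (S := S) fun k ω => ∀ a : Fin (s.lf i).e, ∃ a' : Fin (s'.lf i).e, ∀ j,
      |ftan (lob (s'.lf i) k) ω a' j - ftan (lob (s.lf i) k) ω a j| ≤ K k * S.dl 1 k := by
    intro i
    obtain ⟨he, D, G, G', K, hK, _, hY, hdeg, hG⟩ := ht i
    obtain ⟨L, hL, hYb⟩ := (s.lf i).Y.bd
    refine ⟨fun k => ((D : ℝ) + 1) ^ (s.lf i).e * ((K k * (D + 1)) * (L k + 1) ^ D), ?_, ?_⟩
    · refine (S.Sub_const (by positivity)).mul ((hK.mul (S.Sub_const (by positivity))).mul ?_)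
      exact Sub_pow' (hL.add (S.Sub_const zero_le_one)) D
    · refine Typ.mono hG ?_
      filter_upwards [hYb, hK.1, hL.1] with k hb hK0 hL0 ω hω hg a
      refine ⟨Fin.cast he.symm a, fun j => ?_⟩
      have hF := (hg j).1
      have hcf := (hg j).2
      have d1 : ftan (lob (s.lf i) k) ω a j =
          MvPolynomial.eval ((s.lf i).Y.v k ω) (MvPolynomial.pderiv a (G k ω j)) := by
        have e1 : (fun t => (s.lf i).F k ω (Function.update ((s.lf i).Y.v k ω) a t) j) =
            fun t => MvPolynomial.eval (Function.update ((s.lf i).Y.v k ω) a t) (G k ω j) := by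
          funext t
          exact (hF _).1
        show deriv (fun t => (s.lf i).F k ω (Function.update ((s.lf i).Y.v k ω) a t) j) ((s.lf i).Y.v k ω a) = _
        rw [e1]
        exact (hasDerivAt_pderiv a (G k ω j) ((s.lf i).Y.v k ω)).deriv
      have d2 : ftan (lob (s'.lf i) k) ω (Fin.cast he.symm a) j =
          MvPolynomial.eval ((s.lf i).Y.v k ω) (MvPolynomial.pderiv a (G' k ω j)) := by
        have e2 : ∀ t : ℝ, Function.update ((s'.lf i).Y.v k ω) (Fin.cast he.symm a) t =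
            fun m => Function.update ((s.lf i).Y.v k ω) a t (Fin.cast he m) := by
          intro t
          funext m
          by_cases hm : m = Fin.cast he.symm a
          · subst hm
            have e4 : Fin.cast he (Fin.cast he.symm a) = a := by
              ext
              rfl
            rw [Function.update_self, e4, Function.update_self]
          · have hm2 : Fin.cast he m ≠ a := by
              intro h
              apply hm
              rw [← h]
              ext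
              rfl
            rw [Function.update_of_ne hm, Function.update_of_ne hm2]
            have := hY k ω (Fin.cast he m)
            rw [← this]
            congr 1
        have e1 : (fun t => (s'.lf i).F k ω (Function.update ((s'.lf i).Y.v k ω) (Fin.cast he.symm a) t) j) =
            fun t => MvPolynomial.eval (Function.update ((s.lf i).Y.v k ω) a t) (G' k ω j) := by
          funext t
          rw [e2]
          exact (hF _).2
        show deriv (fun t => (s'.lf i).F k ω (Function.update ((s'.lf i).Y.v k ω) (Fin.cast he.symm a) t) j)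
          ((s'.lf i).Y.v k ω (Fin.cast he.symm a)) = _
        rw [e1, hY]
        exact (hasDerivAt_pderiv a (G' k ω j) ((s.lf i).Y.v k ω)).deriv
      have d3 : ftan (lob (s'.lf i) k) ω (Fin.cast he.symm a) j - ftan (lob (s.lf i) k) ω a j =
          MvPolynomial.eval ((s.lf i).Y.v k ω) (MvPolynomial.pderiv a (G' k ω j - G k ω j)) := by
        refine (congrArg₂ (fun x y : ℝ => x - y) d2 d1).trans ?_
        rw [map_sub, map_sub]
      have hdl := S.dl_pos 1 k
      have g1 : (G' k ω j - G k ω j).totalDegree ≤ D :=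
        (MvPolynomial.totalDegree_sub _ _).trans (max_le (hdeg k ω j).2 (hdeg k ω j).1)
      have g2 : ∀ b, |(G' k ω j - G k ω j).coeff b| ≤ K k * S.dl 1 k := by
        intro b
        rw [MvPolynomial.coeff_sub]
        exact (hcf b).2
      have g3 := eval_le_of_coeff (MvPolynomial.pderiv a (G' k ω j - G k ω j))
        ((totalDegree_pderiv_le a _).trans g1) (K k * S.dl 1 k * (D + 1)) (L k + 1) (by positivity) (by linarith)
        (fun b => coeff_pderiv_le g1 (by positivity) g2 a b) ((s.lf i).Y.v k ω) (fun m => by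
          have := hb ω hω m
          linarith)
      refine (congrArg abs d3).le.trans (g3.trans (le_of_eq ?_))
      ring
  choose K hK hT using h1
  refine ⟨fun k => ∑ i, K i k, ?_, ?_⟩
  · have : ∀ t : Finset ι, S.Sub (fun k => ∑ i ∈ t, K i k) := by
      intro t
      induction t using Finset.induction_on with
      | empty => simpa using S.Sub_const le_rfl
      | insert i t hi ih =>
        simp only [Finset.sum_insert hi]
        exact (hK i).add ih
    exact this _
  · have h2 : Typ (S := S) fun k ω => ∀ i, ∀ a : Fin (s.lf i).e, ∃ a' : Fin (s'.lf i).e, ∀ j,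
        |ftan (lob (s'.lf i) k) ω a' j - ftan (lob (s.lf i) k) ω a j| ≤ K i k * S.dl 1 k := by
      exact Pool.Agent.Helper7.GZ.Typ_all _ hT
    refine Typ.mono h2 ?_
    have h3 : ∀ᶠ k in UF, ∀ i, 0 ≤ K i k := eventually_all.mpr fun i => (hK i).1
    filter_upwards [h3] with k h0 ω _ hh a
    obtain ⟨a', ha'⟩ := hh a.1 a.2
    refine ⟨⟨a.1, a'⟩, fun j => (ha' j).trans ?_⟩
    refine mul_le_mul_of_nonneg_right ?_ (S.dl_pos 1 k).le
    exact Finset.single_le_sum (f := fun i => K i k) (fun i _ => h0 i) (Finset.mem_univ a.1)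

/-- terms of the charts of the size of the finest resolution may be dropped, any condition -/
theorem nc_tay [Finite ι] {s : MSys S M E ι} {s' : MSys S M E' ι} (ht : Tay s s') {γ : Type} [Fintype γ] {h₀ : ℝ}
    (h0 : 0 < h₀) (C : ∀ k, Setoid (S.F k).Ω)
    (H : ∀ δ : ℝ, 0 < δ → ∀ᶠ k in UF, NCf (S.F k) (C k) γ (mtan (ob s k)) h₀ δ) (δ : ℝ) (hδ : 0 < δ) :
    ∀ᶠ k in UF, NCf (S.F k) (C k) γ (mtan (ob s' k)) h₀ δ := by
  obtain ⟨K, hK, hT⟩ := tay_tan ht
  refine nc_near h0 hK C (Typ.mono hT ?_) H δ hδ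
  filter_upwards [hK.1] with k h0 ω _ hh a
  obtain ⟨a', ha'⟩ := hh a
  refine ⟨a', fun j => (ha' j).trans ?_⟩
  exact mul_le_mul_of_nonneg_left (S.dl_anti (by norm_num) k) h0

/-- the field `tay` for the classes `NC` -/
theorem NC_tay [Finite ι] {s : MSys S M E ι} {s' : MSys S M E' ι} (ht : Tay s s') {k : ℕ} {h₀ : ℝ} (h0 : 0 < h₀)
    (H : NC k h₀ s) : NC k h₀ s' := by
  intro δ hδ
  have h1 := nc_tay ht (γ := Fin (M + 1 - k)) h0 (fun n => cQ1 (S.F n) (ob s n)) H δ hδ
  have e1 : ∀ n, cQ1 (S.F n) (ob s' n) = cQ1 (S.F n) (ob s n) := by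
    intro n
    rw [cQ1_ob, cQ1_ob, ht.1]
  filter_upwards [h1] with n h2
  show NCf (S.F n) (cQ1 (S.F n) (ob s' n)) (Fin (M + 1 - k)) (mtan (ob s' n)) h₀ δ
  rw [e1]
  exact h2

end

end Pool.Agent.Helper37.OKD
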